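import Mathlib
import Pool.Agent.Y877.SxD

/-! High moments of the arithmetic weight of differences. -/

set_option autoImplicit false

namespace Pool.Agent.L0h42.LP
open Finset Pool.Agent.H373R2.T7 Pool.Agent.Y877.SX

/-- the constant -/
noncomputable def CK (K : ℕ) : ℝ := Real.exp (2 * K * Real.exp (2 * K))

lemma CK_pos (K : ℕ) : 0 < CK K := Real.exp_pos _

lemma fac_inv_exp {p : ℕ} (hp : p.Prime) : (1 - 1 / (p : ℝ))⁻¹ ≤ Real.exp (2 / p) := by
  have h2 : (2 : ℝ) ≤ p := by exact_mod_cast hp.two_le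
  have h1 : 0 < 1 - 1 / (p : ℝ) := fac_pos hp
  have h3 : (1 - 1 / (p : ℝ))⁻¹ ≤ 1 + 2 / p := by
    rw [inv_le_iff_one_le_mul₀ h1]
    have hp0 : (0 : ℝ) < p := by linarith
    have e : (1 + 2 / (p : ℝ)) * (1 - 1 / p) = 1 + (1 / p) * (1 - 2 / p) := by
      field_simp
      ring
    rw [e]
    have h4 : 2 / (p : ℝ) ≤ 1 := by rw [div_le_one hp0]; exact h2
    have : 0 ≤ (1 / (p : ℝ)) * (1 - 2 / p) := mul_nonneg (by positivity) (by linarith)
    linarith
  refine h3.trans ?_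
  have := Real.add_one_le_exp (2 / (p : ℝ))
  linarith

lemma exp_sub_one (t : ℝ) : Real.exp t ≤ 1 + t * Real.exp t := by
  have h1 := Real.add_one_le_exp (-t)
  have h2 : 0 < Real.exp t := Real.exp_pos t
  have h3 : Real.exp t * Real.exp (-t) = 1 := by rw [← Real.exp_add]; simp
  nlinarith

lemma fd_mom (K y z k N : ℕ) (hy : 1 ≤ y) (hk : k ≤ K * y) : ∑ d ∈ Icc 1 N, fd y z d ^ k ≤ CK K * N := by
  obtain ⟨c, hc⟩ : ∃ c : ℝ, c = 2 * K * Real.exp (2 * K) := ⟨_, rfl⟩
  have hc0 : 0 ≤ c := by rw [hc]; positivity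
  have hy1 : (1 : ℝ) ≤ y := by exact_mod_cast hy
  have hkr : (k : ℝ) ≤ K * y := by exact_mod_cast hk
  have h1 : ∀ d ∈ Icc 1 N, fd y z d ^ k ≤ ∏ p ∈ mid y z, (1 + if p ∣ d then c * y / p else 0) := by
    intro d _
    unfold fd
    rw [← prod_pow, prod_filter]
    apply prod_le_prod
    · intro p hp
      split_ifs
      · exact pow_nonneg (zero_le_one.trans (fac_inv_one (mem_mid.1 hp).2.2)) _
      · exact zero_le_one
    · intro p hp
      split_ifs
      · have hpp := (mem_mid.1 hp).2.2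
        have hyp : (y : ℝ) < p := by exact_mod_cast (mem_mid.1 hp).1
        have hp0 : (0 : ℝ) < p := by linarith
        have e1 : (1 - 1 / (p : ℝ))⁻¹ ^ k ≤ Real.exp (2 * k / p) := by
          have h2 := pow_le_pow_left₀ (zero_le_one.trans (fac_inv_one hpp)) (fac_inv_exp hpp) k
          rw [← Real.exp_nat_mul] at h2
          refine h2.trans (le_of_eq ?_)
          congr 1
          ring
        have e2 : 2 * (k : ℝ) / p ≤ 2 * (K * y) / p := by
          apply div_le_div_of_nonneg_right _ hp0.le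
          linarith
        have e3 : 2 * ((K : ℝ) * y) / p ≤ 2 * K := by
          rw [div_le_iff₀ hp0]
          have : (0 : ℝ) ≤ K := Nat.cast_nonneg K
          nlinarith
        have t0 : 0 ≤ 2 * ((K : ℝ) * y) / p := by positivity
        have e4 := exp_sub_one (2 * ((K : ℝ) * y) / p)
        have e5 : Real.exp (2 * (K * y) / p) ≤ Real.exp (2 * K) := Real.exp_le_exp.2 e3
        have e6 : 2 * ((K : ℝ) * y) / p * Real.exp (2 * (K * y) / p) ≤ 2 * ((K : ℝ) * y) / p * Real.exp (2 * K) :=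
          mul_le_mul_of_nonneg_left e5 t0
        have e7 : 2 * ((K : ℝ) * y) / p * Real.exp (2 * K) = c * y / p := by rw [hc]; ring
        have e8 : Real.exp (2 * k / p) ≤ Real.exp (2 * (K * y) / p) := Real.exp_le_exp.2 e2
        linarith
      · simp
  refine (sum_le_sum h1).trans ?_
  refine (sum_prod_le (mid y z) (fun p hp => (mem_mid.1 hp).2.2) (fun p => c * y / p) (fun p => by positivity) N).trans ?_
  rw [mul_comm (CK K)]
  apply mul_le_mul_of_nonneg_left _ (Nat.cast_nonneg N)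
  have h2 : ∏ p ∈ mid y z, (1 + c * (y : ℝ) / p / p) ≤ Real.exp (∑ p ∈ mid y z, c * (y : ℝ) / p / p) := by
    rw [Real.exp_sum]
    apply prod_le_prod
    · intro p _
      positivity
    · intro p _
      rw [add_comm]
      exact Real.add_one_le_exp _
  refine h2.trans ?_
  unfold CK
  apply Real.exp_le_exp.2
  rw [← hc]
  have h4 : ∑ p ∈ mid y z, c * (y : ℝ) / p / p = (c * y) * ∑ p ∈ mid y z, ((p : ℝ) ^ 2)⁻¹ := by
    rw [mul_sum]
    apply sum_congr rfl
    intro p hp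
    have hp0 : (p : ℝ) ≠ 0 := by exact_mod_cast (mem_mid.1 hp).2.2.ne_zero
    field_simp
  rw [h4]
  have h5 : ∑ p ∈ mid y z, ((p : ℝ) ^ 2)⁻¹ ≤ (y : ℝ)⁻¹ := by
    by_cases hyz : y ≤ z
    · refine (sum_le_sum_of_subset_of_nonneg (t := Ioc y z) (fun p hp => mem_Ioc.2 ⟨(mem_mid.1 hp).1, (mem_mid.1 hp).2.1⟩) (fun _ _ _ => by positivity)).trans ?_
      refine (sum_Ioc_inv_sq_le_sub (by omega) hyz).trans ?_
      have : 0 ≤ (z : ℝ)⁻¹ := by positivity
      linarith
    · have : mid y z = ∅ := by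
        apply eq_empty_of_forall_notMem
        intro p hp
        have := mem_mid.1 hp
        omega
      rw [this, sum_empty]
      positivity
  calc c * y * ∑ p ∈ mid y z, ((p : ℝ) ^ 2)⁻¹ ≤ c * y * (y : ℝ)⁻¹ := by gcongr
    _ = c := by
      have : (y : ℝ) ≠ 0 := by linarith
      field_simp

lemma F_mom (K y z k N : ℕ) (hy : 1 ≤ y) (hk : k ≤ K * y) (S : Finset ℕ) (hS : S ⊆ Icc 1 N) (s : ℕ) (hs : s ∈ S) :
    ∑ t ∈ S.erase s, fd y z (Nat.dist s t) ^ k ≤ 2 * CK K * N := by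
  have h0 : ∑ t ∈ S.erase s, fd y z (Nat.dist s t) ^ k ≤ ∑ t ∈ (Icc 1 N).erase s, fd y z (Nat.dist s t) ^ k := by
    apply sum_le_sum_of_subset_of_nonneg (erase_subset_erase _ hS)
    intro t _ _
    exact pow_nonneg (fd_one' _ _ _) _
  have h2 := dist_sum_le N s (hS hs) (fun d => fd y z d ^ k) (fun d => pow_nonneg (fd_one' _ _ _) _)
  have h3 := fd_mom K y z k N hy hk
  linarith

lemma F_sum (K y z n N : ℕ) (hy : 1 ≤ y) (hk : n + 1 ≤ K * y) (S : Finset ℕ) (hS : S ⊆ Icc 1 N) (η : ℝ) (hη : 0 < η)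
    (hm : 2 * CK K * (N : ℝ) ≤ (1 + η) ^ (n + 1) * S.card) (s : ℕ) (hs : s ∈ S) :
    ∑ t ∈ S.erase s, fd y z (Nat.dist s t) ≤ (1 + η) * S.card := by
  have h1 := F_mom K y z (n + 1) N hy hk S hS s hs
  have hFF : ∀ t, 0 ≤ fd y z (Nat.dist s t) := fun t => fd_one' _ _ _
  have h3 := pow_sum_div_card_le_sum_pow (s := S.erase s) (f := fun t => fd y z (Nat.dist s t)) (fun t _ => hFF t) n
  have hm0 : (0 : ℝ) < S.card := by exact_mod_cast card_pos.2 ⟨s, hs⟩
  by_contra hcon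
  push Not at hcon
  set T := ∑ t ∈ S.erase s, fd y z (Nat.dist s t) with hT
  by_cases hc0 : (S.erase s).card = 0
  · rw [card_eq_zero] at hc0
    rw [hc0, sum_empty] at hT
    rw [hT] at hcon
    have : 0 < (1 + η) * S.card := by positivity
    linarith
  have hc1 : (0 : ℝ) < (S.erase s).card := by exact_mod_cast Nat.pos_of_ne_zero hc0
  have hcle : ((S.erase s).card : ℝ) ≤ S.card := by exact_mod_cast card_le_card (erase_subset _ _)
  have hCN : 0 ≤ 2 * CK K * (N : ℝ) := by have := CK_pos K; positivity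
  have h4 : T ^ (n + 1) ≤ 2 * CK K * N * (S.card : ℝ) ^ n := by
    rw [div_le_iff₀ (by positivity)] at h3
    refine h3.trans ?_
    have : ((S.erase s).card : ℝ) ^ n ≤ (S.card : ℝ) ^ n := pow_le_pow_left₀ hc1.le hcle n
    calc _ ≤ 2 * CK K * (N : ℝ) * ((S.erase s).card : ℝ) ^ n := by
            apply mul_le_mul_of_nonneg_right h1 (by positivity)
      _ ≤ _ := mul_le_mul_of_nonneg_left this hCN
  have h5 : ((1 + η) * S.card) ^ (n + 1) < T ^ (n + 1) := pow_lt_pow_left₀ hcon (by positivity) (by omega)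
  have h6 : 2 * CK K * N * (S.card : ℝ) ^ n ≤ ((1 + η) * S.card) ^ (n + 1) := by
    calc 2 * CK K * N * (S.card : ℝ) ^ n ≤ (1 + η) ^ (n + 1) * S.card * (S.card : ℝ) ^ n := by
          apply mul_le_mul_of_nonneg_right hm (by positivity)
      _ = _ := by rw [mul_pow]; ring
  linarith

end Pool.Agent.L0h42.LP
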