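import Mathlib
import Pool.Agent.L0h42.LP.L3
import Pool.Agent.H646.Cheb

/-! Linear polynomials: one residue class of the constant term. -/

set_option autoImplicit false

namespace Pool.Agent.L0h42.LP
open Finset Pool.Agent.H373R2.T7 Pool.Agent.Y877.SX

/-- the `n`-th prime, `n ≥ 1` -/
noncomputable def pr (n : ℕ) : ℕ := Nat.nth Nat.Prime (n - 1)

/-- the number of `n ≤ N` with `p_n + 2 (a n + c)` prime -/
noncomputable def hits (a c N : ℕ) : ℕ := ((Icc 1 N).filter (fun n => (pr n + 2 * (a * n + c)).Prime)).card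

lemma pr_prime (n : ℕ) : (pr n).Prime := Nat.prime_nth_prime _

lemma pr_gt {n : ℕ} (hn : 1 ≤ n) : n < pr n := by
  have h := Nat.add_two_le_nth_prime (n - 1)
  unfold pr
  omega

lemma pr_lt {n m : ℕ} (hn : 1 ≤ n) (h : n < m) : pr n < pr m :=
  Nat.nth_strictMono Nat.infinite_setOfPred_prime (by omega)

lemma pr_le : ∃ C₀ : ℝ, 1 ≤ C₀ ∧ ∀ n : ℕ, 3 ≤ n → (pr n : ℝ) ≤ C₀ * (n * Real.log n) := by
  obtain ⟨C, hC, h⟩ := Pool.Agent.H646.ChebM.P_le
  refine ⟨C, hC, fun n hn => ?_⟩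
  have h1 := h (n - 1) (by omega)
  refine h1.trans ?_
  have h2 : ((n - 1 : ℕ) : ℝ) ≤ n := by exact_mod_cast Nat.sub_le n 1
  have h3 : (1 : ℝ) ≤ ((n - 1 : ℕ) : ℝ) := by exact_mod_cast (by omega : 1 ≤ n - 1)
  have h4 : Real.log ((n - 1 : ℕ) : ℝ) ≤ Real.log n := Real.log_le_log (by linarith) h2
  have h5 : 0 ≤ Real.log ((n - 1 : ℕ) : ℝ) := Real.log_nonneg h3
  apply mul_le_mul_of_nonneg_left _ (by linarith)
  exact mul_le_mul h2 h4 h5 (by linarith)

/-- the residue class of `n` -/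
lemma exists_nu (a y γ : ℕ) (hγ : ∀ l : ℕ, l.Prime → l ≠ 2 → l ∣ a → l ≤ y → l ∣ γ) :
    ∃ ν : ℕ, ∀ l : ℕ, l.Prime → l ≠ 2 → l ≤ y → l ∣ a * ν + γ := by
  obtain ⟨T, hT⟩ : ∃ T, T = (pz y).filter (fun l => ¬ l ∣ a) := ⟨_, rfl⟩
  obtain ⟨M', hM'⟩ : ∃ M', M' = ∏ l ∈ T, l := ⟨_, rfl⟩
  have hTp : ∀ l ∈ T, l.Prime ∧ l ≤ y ∧ ¬ l ∣ a := by
    intro l hl
    rw [hT, mem_filter, mem_pz] at hl
    exact ⟨hl.1.2, hl.1.1, hl.2⟩
  have hM0 : 0 < M' := by rw [hM']; exact prod_pos fun l hl => (hTp l hl).1.pos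
  have hcop : Nat.Coprime a M' := by
    rw [hM']
    apply Nat.Coprime.prod_right
    intro l hl
    exact (((hTp l hl).1.coprime_iff_not_dvd).2 (hTp l hl).2.2).symm
  have hbez := Nat.gcd_eq_gcd_ab a M'
  rw [hcop.gcd_eq_one] at hbez
  obtain ⟨u, hu⟩ : ∃ u, u = Nat.gcdA a M' := ⟨_, rfl⟩
  obtain ⟨w, hw⟩ : ∃ w, w = Nat.gcdB a M' := ⟨_, rfl⟩
  rw [← hu, ← hw] at hbez
  obtain ⟨ν, hν⟩ : ∃ ν : ℕ, ((ν : ℕ) : ℤ) = (-(γ : ℤ) * u) % (M' : ℤ) :=
    ⟨((-(γ : ℤ) * u) % (M' : ℤ)).toNat, Int.toNat_of_nonneg (Int.emod_nonneg _ (by omega))⟩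
  refine ⟨ν, fun l hl hl2 hly => ?_⟩
  by_cases hla : l ∣ a
  · exact dvd_add (hla.mul_right _) (hγ l hl hl2 hla hly)
  · have hlT : l ∈ T := by
      rw [hT, mem_filter, mem_pz]
      exact ⟨⟨hly, hl⟩, hla⟩
    have hlM : (l : ℤ) ∣ (M' : ℤ) := by
      rw [hM']
      exact_mod_cast dvd_prod_of_mem _ hlT
    have h1 : (ν : ℤ) = -(γ : ℤ) * u - M' * ((-(γ : ℤ) * u) / (M' : ℤ)) := by
      rw [hν]
      have := Int.emod_add_mul_ediv (-(γ : ℤ) * u) (M' : ℤ)
      linarith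
    have h2 : ((a * ν + γ : ℕ) : ℤ) = M' * (γ * w - a * ((-(γ : ℤ) * u) / (M' : ℤ))) := by
      push_cast
      rw [h1]
      have h3 : (a : ℤ) * u = 1 - M' * w := by
        push_cast at hbez
        linarith
      calc (a : ℤ) * (-(γ : ℤ) * u - M' * ((-(γ : ℤ) * u) / (M' : ℤ))) + γ
          = -(γ : ℤ) * (a * u) - M' * (a * ((-(γ : ℤ) * u) / (M' : ℤ))) + γ := by ring
        _ = _ := by rw [h3]; ring
    have h4 : (l : ℤ) ∣ ((a * ν + γ : ℕ) : ℤ) := by
      rw [h2]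
      exact hlM.mul_right _
    exact_mod_cast h4

/-- the indices of the class -/
lemma J_card (y N1 M ν : ℕ) (hM : 1 ≤ M) :
    N1 / M - y - 2 ≤ ((Icc (y + 1) N1).filter (fun n => n % M = ν % M)).card := by
  have h1 : (range (N1 / M - y - 2)).card ≤ ((Icc (y + 1) N1).filter (fun n => n % M = ν % M)).card := by
    apply card_le_card_of_injOn (fun k => M * (y + 1 + k) + ν % M)
    · intro k hk
      rw [mem_coe, mem_range] at hk
      rw [mem_coe, mem_filter, mem_Icc]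
      have h2 : ν % M < M := Nat.mod_lt _ (by omega)
      have h3 : M * (y + 1 + k) + M ≤ N1 := by
        have h4 : y + 1 + k + 1 ≤ N1 / M := by omega
        calc M * (y + 1 + k) + M = M * (y + 1 + k + 1) := by ring
          _ ≤ M * (N1 / M) := Nat.mul_le_mul_left _ h4
          _ ≤ N1 := Nat.mul_div_le _ _
      have h5 : y + 1 + k ≤ M * (y + 1 + k) := Nat.le_mul_of_pos_left _ (by omega)
      refine ⟨⟨?_, ?_⟩, ?_⟩
      · show y + 1 ≤ M * (y + 1 + k) + ν % M
        omega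
      · show M * (y + 1 + k) + ν % M ≤ N1
        omega
      · show (M * (y + 1 + k) + ν % M) % M = ν % M
        rw [Nat.mul_add_mod, Nat.mod_mod]
    · intro k _ k' _ h
      simp only at h
      have h2 : M * (y + 1 + k) = M * (y + 1 + k') := by omega
      have := Nat.eq_of_mul_eq_mul_left (by omega) h2
      omega
  rwa [card_range] at h1

open Classical in
theorem cls (a : ℕ) (κ δ : ℝ) (hκ : 0 < κ) (hκ1 : κ ≤ 1) (hδ : 0 < δ) (hδ1 : 3 * δ ≤ 1) :
    ∃ B X0 : ℕ, 1 ≤ B ∧ ∀ X : ℕ, X0 ≤ X → ∀ L : ℝ, L = Real.log (2 * X : ℕ) → ∀ y N1 M : ℕ, y = ⌊κ * Real.log L⌋₊ →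
    N1 = ⌊(X : ℝ) / (B * L)⌋₊ → M = primorial y → ∀ γ < M, (∀ l : ℕ, l.Prime → l ≠ 2 → l ∣ a → l ≤ y → l ∣ γ) →
    (((Icc 1 (X / M)).filter (fun g => (hits a (γ + M * g) N1 : ℝ) * (2 * L) <
      (1 - 3 * δ) * (X / (2 * B * L * M)))).card : ℝ) ≤ 6 * δ * (X / M : ℕ) := by
  obtain ⟨C0, hC0, hpr⟩ := pr_le
  obtain ⟨B, hB⟩ : ∃ B : ℕ, B = 8 * a + ⌈8 * C0⌉₊ + 1 := ⟨_, rfl⟩
  have hB1 : 1 ≤ B := by omega
  have hBr : (1 : ℝ) ≤ B := by exact_mod_cast hB1
  have hBC : 8 * C0 ≤ B := by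
    have h1 := Nat.le_ceil (8 * C0)
    have h2 : ((⌈8 * C0⌉₊ : ℕ) : ℝ) ≤ B := by exact_mod_cast (by omega : ⌈8 * C0⌉₊ ≤ B)
    linarith
  have hBa : 8 * (a : ℝ) ≤ B := by exact_mod_cast (by omega : 8 * a ≤ B)
  obtain ⟨x0, hx0⟩ := shifts1 1 rfl 4 1 (κ / 2) δ (by linarith) hδ 1
  obtain ⟨x1, hx1⟩ := ev_L' (max (Real.exp (2 / κ)) (max (Real.exp 1) (4 * B + 8)))
  obtain ⟨x2, hx2⟩ := ev_log' 4 (64 * B)
  refine ⟨B, max (max x0 x1) (max x2 4), hB1, fun X hX L hL y N1 M hy hN1 hM γ hγ hγp => ?_⟩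
  have b0 : x0 ≤ 2 * X := by have := le_trans (le_trans (le_max_left _ _) (le_max_left _ _)) hX; omega
  have b1 : x1 ≤ 2 * X := by have := le_trans (le_trans (le_max_right _ _) (le_max_left _ _)) hX; omega
  have b2 : x2 ≤ 2 * X := by have := le_trans (le_trans (le_max_left _ _) (le_max_right _ _)) hX; omega
  have b4 : 4 ≤ X := le_trans (le_trans (le_max_right _ _) (le_max_right _ _)) hX
  have hL1 := hx1 (2 * X) b1
  have hs := hx2 (2 * X) b2
  rw [← hL] at hL1 hs
  have hLκ : Real.exp (2 / κ) ≤ L := (le_max_left _ _).trans hL1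
  have hLe : Real.exp 1 ≤ L := ((le_max_left _ _).trans (le_max_right _ _)).trans hL1
  have hLB : 4 * (B : ℝ) + 8 ≤ L := ((le_max_right _ _).trans (le_max_right _ _)).trans hL1
  have hL0 : 0 < L := by linarith
  have hX0 : (0 : ℝ) < X := by exact_mod_cast (by omega : 0 < X)
  have hX4 : (4 : ℝ) ≤ X := by exact_mod_cast b4
  have hlogL : 2 / κ ≤ Real.log L := by
    have := Real.log_le_log (Real.exp_pos _) hLκ
    rwa [Real.log_exp] at this
  have hκL : 2 ≤ κ * Real.log L := by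
    have := mul_le_mul_of_nonneg_left hlogL hκ.le
    rwa [mul_div_cancel₀ _ hκ.ne'] at this
  have hlogL0 : 0 < Real.log L := lt_of_lt_of_le (by positivity) hlogL
  -- y
  have hy1 : (y : ℝ) ≤ κ * Real.log L := by rw [hy]; exact Nat.floor_le (by linarith)
  have hy2 : κ * Real.log L < y + 1 := by rw [hy]; exact Nat.lt_floor_add_one _
  have hy2' : 2 ≤ y := by
    rw [hy]
    exact Nat.le_floor (by exact_mod_cast hκL)
  have hyl : (y : ℝ) ≤ 1 * Real.log L := hy1.trans (mul_le_mul_of_nonneg_right hκ1 hlogL0.le)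
  have hyL : (y : ℝ) ≤ L := by
    have := Real.log_le_sub_one_of_pos hL0
    linarith
  -- M
  have hML : (M : ℝ) ≤ L ^ 2 := by
    rw [hM]
    exact primorial_le_log 1 y L hLe (by exact_mod_cast hyl)
  have hM1 : 1 ≤ M := by rw [hM]; exact primorial_pos y
  have hMr : (1 : ℝ) ≤ M := by exact_mod_cast hM1
  -- sizes
  have hbig : 64 * (B : ℝ) * L ^ 4 ≤ 2 * X := by
    have h1 : √((2 * X : ℕ) : ℝ) ≤ ((2 * X : ℕ) : ℝ) := by
      rw [Real.sqrt_le_left (by positivity)]
      have : (1 : ℝ) ≤ ((2 * X : ℕ) : ℝ) := by push_cast; linarith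
      nlinarith
    have h2 := hs.trans h1
    push_cast at h2
    exact h2
  have hL4 : 1 ≤ L := by linarith
  have hL2' : L ^ 2 ≤ X / 32 := by
    have h1 : L ^ 2 ≤ L ^ 4 := pow_le_pow_right₀ hL4 (by norm_num)
    have h2 : L ^ 4 * 1 ≤ L ^ 4 * B := mul_le_mul_of_nonneg_left hBr (by positivity)
    linarith
  obtain ⟨ν, hν⟩ := exists_nu a y γ hγp
  obtain ⟨J, hJ⟩ : ∃ J, J = (Icc (y + 1) N1).filter (fun n => n % M = ν % M) := ⟨_, rfl⟩
  obtain ⟨f, hf⟩ : ∃ f : ℕ → ℕ, ∀ n, f n = pr n + 2 * (a * n + γ) := ⟨_, fun _ => rfl⟩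
  have hJm : ∀ n ∈ J, y + 1 ≤ n ∧ n ≤ N1 ∧ n % M = ν % M := by
    intro n hn
    rw [hJ, mem_filter, mem_Icc] at hn
    exact ⟨hn.1.1, hn.1.2, hn.2⟩
  have hfinj : Set.InjOn f (J : Set ℕ) := by
    intro n hn m hm h
    rw [mem_coe] at hn hm
    have h1 := hJm n hn
    have h2 := hJm m hm
    rw [hf, hf] at h
    rcases lt_trichotomy n m with h3 | h3 | h3
    · have h4 := pr_lt (by omega) h3
      have h5 : a * n ≤ a * m := Nat.mul_le_mul_left _ h3.le
      omega
    · exact h3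
    · have h4 := pr_lt (by omega) h3
      have h5 : a * m ≤ a * n := Nat.mul_le_mul_left _ h3.le
      omega
  obtain ⟨S, hS⟩ : ∃ S, S = J.image f := ⟨_, rfl⟩
  have hSc : S.card = J.card := by rw [hS]; exact card_image_of_injOn hfinj
  -- N1
  have hN1a : (N1 : ℝ) ≤ X / (B * L) := by rw [hN1]; exact Nat.floor_le (by positivity)
  have hN1b : (X : ℝ) / (B * L) < N1 + 1 := by rw [hN1]; exact Nat.lt_floor_add_one _
  have hSx : S ⊆ Icc 1 (2 * X) := by
    intro s hs'
    rw [hS, mem_image] at hs'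
    obtain ⟨n, hn, rfl⟩ := hs'
    obtain ⟨h1, h2, h3⟩ := hJm n hn
    rw [mem_Icc]
    have hn3 : 3 ≤ n := by omega
    refine ⟨?_, ?_⟩
    · rw [hf]
      have := (pr_prime n).pos
      omega
    · have hnr : (n : ℝ) ≤ X / (B * L) := le_trans (by exact_mod_cast h2) hN1a
      have hn0 : (0 : ℝ) < n := by exact_mod_cast (by omega : 0 < n)
      have hnX : (n : ℝ) ≤ ((2 * X : ℕ) : ℝ) := by
        refine hnr.trans ?_
        push_cast
        have h9 : 1 ≤ (B : ℝ) * L := by nlinarith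
        rw [div_le_iff₀ (by positivity)]
        nlinarith
      have hlogn : Real.log n ≤ L := by rw [hL]; exact Real.log_le_log hn0 hnX
      have hlogn0 : 0 ≤ Real.log n := Real.log_nonneg (by exact_mod_cast (by omega : 1 ≤ n))
      have e1 : (pr n : ℝ) ≤ X / 8 := by
        calc (pr n : ℝ) ≤ C0 * (n * Real.log n) := hpr n hn3
          _ ≤ C0 * (X / (B * L) * L) := by
              apply mul_le_mul_of_nonneg_left _ (by linarith)
              exact mul_le_mul hnr hlogn hlogn0 (by positivity)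
          _ = C0 / B * X := by field_simp
          _ ≤ 1 / 8 * X := by
              apply mul_le_mul_of_nonneg_right _ hX0.le
              rw [div_le_iff₀ (by linarith)]
              linarith
          _ = X / 8 := by ring
      have e2 : 2 * (a : ℝ) * n ≤ X / 4 := by
        calc 2 * (a : ℝ) * n ≤ 2 * a * (X / (B * L)) := mul_le_mul_of_nonneg_left hnr (by positivity)
          _ = (2 * a / B) * (X / L) := by field_simp
          _ ≤ (1 / 4) * (X / 1) := by
              apply mul_le_mul _ _ (by positivity) (by norm_num)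
              · rw [div_le_iff₀ (by linarith)]
                linarith
              · exact div_le_div_of_nonneg_left hX0.le (by norm_num) hL4
          _ = X / 4 := by ring
      have e3 : 2 * (γ : ℝ) ≤ X / 16 := by
        have : (γ : ℝ) ≤ M := by exact_mod_cast hγ.le
        linarith
      have e4 : ((f n : ℕ) : ℝ) ≤ ((2 * X : ℕ) : ℝ) := by
        rw [hf]
        push_cast
        linarith
      exact_mod_cast e4
  -- the size of S
  have hJc := J_card y N1 M ν hM1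
  rw [← hJ] at hJc
  have hSlow : (X : ℝ) / (2 * B * L * M) ≤ S.card := by
    rw [hSc]
    have h1 : (N1 : ℝ) / M - 1 < ((N1 / M : ℕ) : ℝ) := by
      have h2 : (N1 : ℝ) < M * ((N1 / M : ℕ) + 1) := by exact_mod_cast Nat.lt_mul_div_succ N1 (by omega)
      rw [sub_lt_iff_lt_add, div_lt_iff₀ (by linarith), mul_comm]
      exact h2
    have h2 : ((N1 / M : ℕ) : ℝ) ≤ (J.card : ℝ) + y + 2 := by exact_mod_cast (by omega : N1 / M ≤ J.card + y + 2)
    have h3 : (X : ℝ) / (B * L) / M < (N1 + 1) / M := div_lt_div_of_pos_right hN1b (by linarith)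
    have h4 : ((N1 : ℝ) + 1) / M ≤ N1 / M + 1 := by
      rw [add_div]
      have : 1 / (M : ℝ) ≤ 1 := by rw [div_le_one (by linarith)]; exact hMr
      linarith
    have h5 : (X : ℝ) / (B * L) / M = 2 * (X / (2 * B * L * M)) := by field_simp
    have h6 : (y : ℝ) + 4 ≤ X / (2 * B * L * M) := by
      rw [le_div_iff₀ (by positivity)]
      have h7 : (y : ℝ) + 4 ≤ 2 * L := by linarith
      calc ((y : ℝ) + 4) * (2 * B * L * M) ≤ (2 * L) * (2 * B * L * L ^ 2) := by gcongr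
        _ = 4 * B * L ^ 4 := by ring
        _ ≤ X := by
            have : 0 ≤ (B : ℝ) * L ^ 4 := by positivity
            linarith
    linarith
  have hSbig : ((2 * X : ℕ) : ℝ) ≤ S.card * Real.log ((2 * X : ℕ) : ℝ) ^ 4 := by
    rw [← hL]
    have h1 : (X : ℝ) / (2 * B * L * M) * L ^ 4 ≤ S.card * L ^ 4 := mul_le_mul_of_nonneg_right hSlow (by positivity)
    refine le_trans ?_ h1
    rw [div_mul_eq_mul_div, le_div_iff₀ (by positivity)]
    push_cast
    calc 2 * (X : ℝ) * (2 * B * L * M) ≤ 2 * X * (2 * B * L * L ^ 2) := by gcongr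
      _ = X * (4 * B) * L ^ 3 := by ring
      _ ≤ X * L * L ^ 3 := by gcongr; linarith
      _ = X * L ^ 4 := by ring
  have hSp : ∀ s ∈ S, ∀ p : ℕ, p.Prime → p ≤ y → ¬ p ∣ s := by
    intro s hs' p hp hpy hd
    rw [hS, mem_image] at hs'
    obtain ⟨n, hn, rfl⟩ := hs'
    obtain ⟨h1, h2, h3⟩ := hJm n hn
    rw [hf] at hd
    have hpn : y < pr n := lt_of_lt_of_le (by omega : y < n) (pr_gt (by omega)).le
    have hnd : ¬ p ∣ pr n := fun h => by
      have := (Nat.prime_dvd_prime_iff_eq hp (pr_prime n)).1 h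
      omega
    by_cases hp2 : p = 2
    · rw [hp2] at hd hnd
      exact hnd ((Nat.dvd_add_left (Dvd.intro _ rfl)).1 hd)
    · apply hnd
      have h4 := hν p hp hp2 hpy
      have hpM : p ∣ M := by rw [hM]; exact hp.dvd_primorial_iff.2 hpy
      have h5 : a * n + γ ≡ a * ν + γ [MOD p] := by
        have h6 : n ≡ ν [MOD M] := h3
        exact ((h6.of_dvd hpM).mul_left a).add_right γ
      have h6 : p ∣ a * n + γ := (h5.dvd_iff dvd_rfl).2 h4
      exact (Nat.dvd_add_left (h6.mul_left 2)).1 hd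
  obtain ⟨G, hG⟩ : ∃ G, G = X / M := ⟨_, rfl⟩
  rw [← hG]
  have hMG : M * G ≤ X := by rw [hG]; exact Nat.mul_div_le _ _
  have hMG2 : (X : ℝ) < M * (G + 1) := by
    rw [hG]
    exact_mod_cast Nat.lt_mul_div_succ X (by omega : 0 < M)
  have key := hx0 (2 * X) b0 y (by
    rw [← hL]
    linarith) (by
    rw [← hL]
    exact_mod_cast hyl) S hSx hSbig hSp 0 (2 * G) (by
    rw [pow_one, ← hM]
    have e1 : M * (0 + 2 * G) = 2 * (M * G) := by ring
    omega) (by
    rw [← hL, ← hM, pow_one, pow_one]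
    push_cast
    have h1 : (X : ℝ) ≤ 2 * (M * G) := by
      have e1 : (M : ℝ) * (G + 1) = M * G + M := by ring
      linarith
    calc 2 * (X : ℝ) ≤ 2 * (2 * (M * G)) := by linarith
      _ = M * (2 * G) * 2 := by ring
      _ ≤ M * (2 * G) * L := by gcongr; linarith)
  rw [pow_one] at key
  -- comparison
  have hlog2 : Real.log (2 * ((2 * X : ℕ) : ℝ)) ≤ 2 * L := by
    rw [Real.log_mul (by norm_num) (by push_cast; positivity), ← hL]
    have := Real.log_two_lt_d9
    linarith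
  have hcard : ((Icc 1 G).filter (fun g => (hits a (γ + M * g) N1 : ℝ) * (2 * L) <
      (1 - 3 * δ) * (X / (2 * B * L * M)))).card ≤
      ((Icc 1 (2 * G)).filter (fun g => ((S.filter (fun s => (s ^ 1 + primorial y * (0 + g)).Prime)).card : ℝ) *
      Real.log (2 * ((2 * X : ℕ) : ℝ)) < (1 - 3 * δ) * (S.card * (Vz y)⁻¹))).card := by
    apply card_le_card_of_injOn (fun g => 2 * g)
    · intro g hg
      rw [mem_coe, mem_filter, mem_Icc] at hg
      rw [mem_coe, mem_filter, mem_Icc]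
      obtain ⟨⟨hg1, hg2⟩, hg3⟩ := hg
      refine ⟨⟨?_, ?_⟩, ?_⟩
      · dsimp only
        omega
      · dsimp only
        omega
      · dsimp only
        have h1 : (S.filter (fun s => (s ^ 1 + primorial y * (0 + 2 * g)).Prime)).card ≤ hits a (γ + M * g) N1 := by
          rw [hS, filter_image]
          refine card_image_le.trans ?_
          unfold hits
          apply card_le_card
          intro n hn
          rw [mem_filter] at hn
          obtain ⟨h2, h3, h4⟩ := hJm n hn.1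
          rw [mem_filter, mem_Icc]
          refine ⟨⟨by omega, h3⟩, ?_⟩
          have h5 := hn.2
          rw [hf, pow_one, ← hM] at h5
          have e1 : pr n + 2 * (a * n + γ) + M * (0 + 2 * g) = pr n + 2 * (a * n + (γ + M * g)) := by ring
          rwa [e1] at h5
        have h1r : ((S.filter (fun s => (s ^ 1 + primorial y * (0 + 2 * g)).Prime)).card : ℝ) ≤ hits a (γ + M * g) N1 := by
          exact_mod_cast h1
        have hlog0 : 0 ≤ Real.log (2 * ((2 * X : ℕ) : ℝ)) := by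
          apply Real.log_nonneg
          push_cast
          linarith
        have hV1 : 1 ≤ (Vz y)⁻¹ := by
          rw [one_le_inv₀ (Vz_pos y)]
          exact Vz_le_one y
        calc _ ≤ (hits a (γ + M * g) N1 : ℝ) * (2 * L) := mul_le_mul h1r hlog2 hlog0 (Nat.cast_nonneg _)
          _ < (1 - 3 * δ) * (X / (2 * B * L * M)) := hg3
          _ ≤ (1 - 3 * δ) * (S.card * (Vz y)⁻¹) := by
              apply mul_le_mul_of_nonneg_left _ (by linarith)
              calc (X : ℝ) / (2 * B * L * M) ≤ S.card := hSlow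
                _ = S.card * 1 := (mul_one _).symm
                _ ≤ _ := mul_le_mul_of_nonneg_left hV1 (Nat.cast_nonneg _)
    · intro g _ g' _ h
      simp only at h
      omega
  have hcr : (((Icc 1 G).filter (fun g => (hits a (γ + M * g) N1 : ℝ) * (2 * L) <
      (1 - 3 * δ) * (X / (2 * B * L * M)))).card : ℝ) ≤
      (((Icc 1 (2 * G)).filter (fun g => ((S.filter (fun s => (s ^ 1 + primorial y * (0 + g)).Prime)).card : ℝ) *
      Real.log (2 * ((2 * X : ℕ) : ℝ)) < (1 - 3 * δ) * (S.card * (Vz y)⁻¹))).card : ℝ) := by exact_mod_cast hcard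
  refine hcr.trans (key.trans (le_of_eq ?_))
  push_cast
  ring

end Pool.Agent.L0h42.LP
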