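import Mathlib
import Pool.Agent.L0h42.LP.L5

/-! Linear polynomials, every slope: one residue class of the constant term, an arbitrary set of indices. -/

set_option autoImplicit false

namespace Pool.Agent.L0h42.LP
open Finset Pool.Agent.H373R2.T7 Pool.Agent.Y877.SX

open Classical in
theorem cls_gen (a : ℕ) (κ δ δ0 : ℝ) (hκ : 0 < κ) (hκ1 : κ ≤ 1) (hδ : 0 < δ) (hδ1 : 3 * δ ≤ 1) (hd0 : 0 < δ0) :
    ∃ B X0 : ℕ, 1 ≤ B ∧ ∀ X : ℕ, X0 ≤ X → ∀ L : ℝ, L = Real.log (2 * X : ℕ) → ∀ y N1 M : ℕ, y = ⌊κ * Real.log L⌋₊ →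
    N1 = ⌊(X : ℝ) / (B * L)⌋₊ → M = primorial y →
    ((2 ≤ y ∧ (M : ℝ) ≤ L ^ 2 ∧ (y : ℝ) ≤ L ∧ 64 * (B : ℝ) * L ^ 4 ≤ 2 * X ∧ (X : ℝ) / (B * L) < N1 + 1) ∧
    ∀ γ < M, ∀ J ⊆ Icc (y + 1) N1, (∀ n ∈ J, ∀ p : ℕ, p.Prime → p ≤ y → ¬ p ∣ pr n + 2 * (a * n + γ)) →
    δ0 * (X / (2 * B * L * M)) ≤ J.card →
    (((Icc 1 (X / M)).filter (fun g => (hits a (γ + M * g) N1 : ℝ) * (2 * L) <
      (1 - 3 * δ) * (δ0 * (X / (2 * B * L * M))))).card : ℝ) ≤ 6 * δ * (X / M : ℕ)) := by
  obtain ⟨C0, hC0, hpr⟩ := pr_le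
  obtain ⟨B, hB⟩ : ∃ B : ℕ, B = 8 * a + ⌈8 * C0⌉₊ + 1 := ⟨_, rfl⟩
  have hB1 : 1 ≤ B := by omega
  have hBr : (1 : ℝ) ≤ B := by exact_mod_cast hB1
  have hBC : 8 * C0 ≤ B := by
    have h1 := Nat.le_ceil (8 * C0)
    have h2 : ((⌈8 * C0⌉₊ : ℕ) : ℝ) ≤ B := by exact_mod_cast (by omega : ⌈8 * C0⌉₊ ≤ B)
    linarith
  have hBa : 8 * (a : ℝ) ≤ B := by exact_mod_cast (by omega : 8 * a ≤ B)
  obtain ⟨x0, hx0⟩ := shifts1 1 rfl 5 1 (κ / 2) δ (by linarith) hδ 1
  obtain ⟨x1, hx1⟩ := ev_L' (max (Real.exp (2 / κ)) (max (Real.exp 1) (max (4 * B + 8) (4 * B / δ0))))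
  obtain ⟨x2, hx2⟩ := ev_log' 4 (64 * B)
  refine ⟨B, max (max x0 x1) (max x2 4), hB1, fun X hX L hL y N1 M hy hN1 hM => ?_⟩
  have b0 : x0 ≤ 2 * X := by have := le_trans (le_trans (le_max_left _ _) (le_max_left _ _)) hX; omega
  have b1 : x1 ≤ 2 * X := by have := le_trans (le_trans (le_max_right _ _) (le_max_left _ _)) hX; omega
  have b2 : x2 ≤ 2 * X := by have := le_trans (le_trans (le_max_left _ _) (le_max_right _ _)) hX; omega
  have b4 : 4 ≤ X := le_trans (le_trans (le_max_right _ _) (le_max_right _ _)) hX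
  have hL1 := hx1 (2 * X) b1
  have hs := hx2 (2 * X) b2
  rw [← hL] at hL1 hs
  have hLκ : Real.exp (2 / κ) ≤ L := (le_max_left _ _).trans hL1
  have hLe : Real.exp 1 ≤ L := ((le_max_left _ _).trans (le_max_right _ _)).trans hL1
  have hLB : 4 * (B : ℝ) + 8 ≤ L := (((le_max_left _ _).trans (le_max_right _ _)).trans (le_max_right _ _)).trans hL1
  have hLd : 4 * (B : ℝ) / δ0 ≤ L := (((le_max_right _ _).trans (le_max_right _ _)).trans (le_max_right _ _)).trans hL1
  have hL0 : 0 < L := by linarith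
  have hX0 : (0 : ℝ) < X := by exact_mod_cast (by omega : 0 < X)
  have hX4 : (4 : ℝ) ≤ X := by exact_mod_cast b4
  have hlogL : 2 / κ ≤ Real.log L := by
    have := Real.log_le_log (Real.exp_pos _) hLκ
    rwa [Real.log_exp] at this
  have hκL : 2 ≤ κ * Real.log L := by
    have := mul_le_mul_of_nonneg_left hlogL hκ.le
    rwa [mul_div_cancel₀ _ hκ.ne'] at this
  have hlogL0 : 0 < Real.log L := lt_of_lt_of_le (by positivity) hlogL
  -- y
  have hy1 : (y : ℝ) ≤ κ * Real.log L := by rw [hy]; exact Nat.floor_le (by linarith)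
  have hy2 : κ * Real.log L < y + 1 := by rw [hy]; exact Nat.lt_floor_add_one _
  have hy2' : 2 ≤ y := by
    rw [hy]
    exact Nat.le_floor (by exact_mod_cast hκL)
  have hyl : (y : ℝ) ≤ 1 * Real.log L := hy1.trans (mul_le_mul_of_nonneg_right hκ1 hlogL0.le)
  have hyL : (y : ℝ) ≤ L := by
    have := Real.log_le_sub_one_of_pos hL0
    linarith
  -- M
  have hML : (M : ℝ) ≤ L ^ 2 := by
    rw [hM]
    exact primorial_le_log 1 y L hLe (by exact_mod_cast hyl)
  have hM1 : 1 ≤ M := by rw [hM]; exact primorial_pos y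
  have hMr : (1 : ℝ) ≤ M := by exact_mod_cast hM1
  -- sizes
  have hbig : 64 * (B : ℝ) * L ^ 4 ≤ 2 * X := by
    have h1 : √((2 * X : ℕ) : ℝ) ≤ ((2 * X : ℕ) : ℝ) := by
      rw [Real.sqrt_le_left (by positivity)]
      have : (1 : ℝ) ≤ ((2 * X : ℕ) : ℝ) := by push_cast; linarith
      nlinarith
    have h2 := hs.trans h1
    push_cast at h2
    exact h2
  have hL4 : 1 ≤ L := by linarith
  have hL2' : L ^ 2 ≤ X / 32 := by
    have h1 : L ^ 2 ≤ L ^ 4 := pow_le_pow_right₀ hL4 (by norm_num)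
    have h2 : L ^ 4 * 1 ≤ L ^ 4 * B := mul_le_mul_of_nonneg_left hBr (by positivity)
    linarith
  have hN1b' : (X : ℝ) / (B * L) < N1 + 1 := by rw [hN1]; exact Nat.lt_floor_add_one _
  refine ⟨⟨hy2', hML, hyL, hbig, hN1b'⟩, ?_⟩
  intro γ hγ J hJsub hJp hJc
  obtain ⟨f, hf⟩ : ∃ f : ℕ → ℕ, ∀ n, f n = pr n + 2 * (a * n + γ) := ⟨_, fun _ => rfl⟩
  have hJm : ∀ n ∈ J, y + 1 ≤ n ∧ n ≤ N1 := by
    intro n hn
    have := hJsub hn
    rw [mem_Icc] at this
    exact this
  have hfinj : Set.InjOn f (J : Set ℕ) := by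
    intro n hn m hm h
    rw [mem_coe] at hn hm
    have h1 := hJm n hn
    have h2 := hJm m hm
    rw [hf, hf] at h
    rcases lt_trichotomy n m with h3 | h3 | h3
    · have h4 := pr_lt (by omega) h3
      have h5 : a * n ≤ a * m := Nat.mul_le_mul_left _ h3.le
      omega
    · exact h3
    · have h4 := pr_lt (by omega) h3
      have h5 : a * m ≤ a * n := Nat.mul_le_mul_left _ h3.le
      omega
  obtain ⟨S, hS⟩ : ∃ S, S = J.image f := ⟨_, rfl⟩
  have hSc : S.card = J.card := by rw [hS]; exact card_image_of_injOn hfinj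
  -- N1
  have hN1a : (N1 : ℝ) ≤ X / (B * L) := by rw [hN1]; exact Nat.floor_le (by positivity)
  have hN1b : (X : ℝ) / (B * L) < N1 + 1 := by rw [hN1]; exact Nat.lt_floor_add_one _
  have hSx : S ⊆ Icc 1 (2 * X) := by
    intro s hs'
    rw [hS, mem_image] at hs'
    obtain ⟨n, hn, rfl⟩ := hs'
    obtain ⟨h1, h2⟩ := hJm n hn
    rw [mem_Icc]
    have hn3 : 3 ≤ n := by omega
    refine ⟨?_, ?_⟩
    · rw [hf]
      have := (pr_prime n).pos
      omega
    · have hnr : (n : ℝ) ≤ X / (B * L) := le_trans (by exact_mod_cast h2) hN1a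
      have hn0 : (0 : ℝ) < n := by exact_mod_cast (by omega : 0 < n)
      have hnX : (n : ℝ) ≤ ((2 * X : ℕ) : ℝ) := by
        refine hnr.trans ?_
        push_cast
        have h9 : 1 ≤ (B : ℝ) * L := by nlinarith
        rw [div_le_iff₀ (by positivity)]
        nlinarith
      have hlogn : Real.log n ≤ L := by rw [hL]; exact Real.log_le_log hn0 hnX
      have hlogn0 : 0 ≤ Real.log n := Real.log_nonneg (by exact_mod_cast (by omega : 1 ≤ n))
      have e1 : (pr n : ℝ) ≤ X / 8 := by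
        calc (pr n : ℝ) ≤ C0 * (n * Real.log n) := hpr n hn3
          _ ≤ C0 * (X / (B * L) * L) := by
              apply mul_le_mul_of_nonneg_left _ (by linarith)
              exact mul_le_mul hnr hlogn hlogn0 (by positivity)
          _ = C0 / B * X := by field_simp
          _ ≤ 1 / 8 * X := by
              apply mul_le_mul_of_nonneg_right _ hX0.le
              rw [div_le_iff₀ (by linarith)]
              linarith
          _ = X / 8 := by ring
      have e2 : 2 * (a : ℝ) * n ≤ X / 4 := by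
        calc 2 * (a : ℝ) * n ≤ 2 * a * (X / (B * L)) := mul_le_mul_of_nonneg_left hnr (by positivity)
          _ = (2 * a / B) * (X / L) := by field_simp
          _ ≤ (1 / 4) * (X / 1) := by
              apply mul_le_mul _ _ (by positivity) (by norm_num)
              · rw [div_le_iff₀ (by linarith)]
                linarith
              · exact div_le_div_of_nonneg_left hX0.le (by norm_num) hL4
          _ = X / 4 := by ring
      have e3 : 2 * (γ : ℝ) ≤ X / 16 := by
        have : (γ : ℝ) ≤ M := by exact_mod_cast hγ.le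
        linarith
      have e4 : ((f n : ℕ) : ℝ) ≤ ((2 * X : ℕ) : ℝ) := by
        rw [hf]
        push_cast
        linarith
      exact_mod_cast e4
  -- the size of S
  have hSlow : δ0 * ((X : ℝ) / (2 * B * L * M)) ≤ S.card := by
    rw [hSc]
    exact hJc
  have hSbig : ((2 * X : ℕ) : ℝ) ≤ S.card * Real.log ((2 * X : ℕ) : ℝ) ^ 5 := by
    rw [← hL]
    have h1 : δ0 * ((X : ℝ) / (2 * B * L * M)) * L ^ 5 ≤ S.card * L ^ 5 := mul_le_mul_of_nonneg_right hSlow (by positivity)
    refine le_trans ?_ h1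
    have h2 : 4 * (B : ℝ) ≤ L * δ0 := by rwa [div_le_iff₀ hd0] at hLd
    have h3 : δ0 * ((X : ℝ) / (2 * B * L * M)) * L ^ 5 = (X * (L * δ0) * L ^ 4) / (2 * B * L * M) := by
      rw [← mul_div_assoc, div_mul_eq_mul_div]
      congr 1
      ring
    rw [h3, le_div_iff₀ (by positivity)]
    push_cast
    calc 2 * (X : ℝ) * (2 * B * L * M) ≤ 2 * X * (2 * B * L * L ^ 2) := by gcongr
      _ = X * (4 * B) * L ^ 3 := by ring
      _ ≤ X * (L * δ0) * L ^ 3 := by gcongr
      _ ≤ X * (L * δ0) * L ^ 4 := by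
          apply mul_le_mul_of_nonneg_left _ (by positivity)
          exact pow_le_pow_right₀ hL4 (by norm_num)
  have hSp : ∀ s ∈ S, ∀ p : ℕ, p.Prime → p ≤ y → ¬ p ∣ s := by
    intro s hs' p hp hpy
    rw [hS, mem_image] at hs'
    obtain ⟨n, hn, rfl⟩ := hs'
    rw [hf]
    exact hJp n hn p hp hpy
  obtain ⟨G, hG⟩ : ∃ G, G = X / M := ⟨_, rfl⟩
  rw [← hG]
  have hMG : M * G ≤ X := by rw [hG]; exact Nat.mul_div_le _ _
  have hMG2 : (X : ℝ) < M * (G + 1) := by
    rw [hG]
    exact_mod_cast Nat.lt_mul_div_succ X (by omega : 0 < M)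
  have key := hx0 (2 * X) b0 y (by
    rw [← hL]
    linarith) (by
    rw [← hL]
    exact_mod_cast hyl) S hSx hSbig hSp 0 (2 * G) (by
    rw [pow_one, ← hM]
    have e1 : M * (0 + 2 * G) = 2 * (M * G) := by ring
    omega) (by
    rw [← hL, ← hM, pow_one, pow_one]
    push_cast
    have h1 : (X : ℝ) ≤ 2 * (M * G) := by
      have e1 : (M : ℝ) * (G + 1) = M * G + M := by ring
      linarith
    calc 2 * (X : ℝ) ≤ 2 * (2 * (M * G)) := by linarith
      _ = M * (2 * G) * 2 := by ring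
      _ ≤ M * (2 * G) * L := by gcongr; linarith)
  rw [pow_one] at key
  -- comparison
  have hlog2 : Real.log (2 * ((2 * X : ℕ) : ℝ)) ≤ 2 * L := by
    rw [Real.log_mul (by norm_num) (by push_cast; positivity), ← hL]
    have := Real.log_two_lt_d9
    linarith
  have hcard : ((Icc 1 G).filter (fun g => (hits a (γ + M * g) N1 : ℝ) * (2 * L) <
      (1 - 3 * δ) * (δ0 * (X / (2 * B * L * M))))).card ≤
      ((Icc 1 (2 * G)).filter (fun g => ((S.filter (fun s => (s ^ 1 + primorial y * (0 + g)).Prime)).card : ℝ) *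
      Real.log (2 * ((2 * X : ℕ) : ℝ)) < (1 - 3 * δ) * (S.card * (Vz y)⁻¹))).card := by
    apply card_le_card_of_injOn (fun g => 2 * g)
    · intro g hg
      rw [mem_coe, mem_filter, mem_Icc] at hg
      rw [mem_coe, mem_filter, mem_Icc]
      obtain ⟨⟨hg1, hg2⟩, hg3⟩ := hg
      refine ⟨⟨?_, ?_⟩, ?_⟩
      · dsimp only
        omega
      · dsimp only
        omega
      · dsimp only
        have h1 : (S.filter (fun s => (s ^ 1 + primorial y * (0 + 2 * g)).Prime)).card ≤ hits a (γ + M * g) N1 := by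
          rw [hS, filter_image]
          refine card_image_le.trans ?_
          unfold hits
          apply card_le_card
          intro n hn
          rw [mem_filter] at hn
          obtain ⟨h2, h3⟩ := hJm n hn.1
          rw [mem_filter, mem_Icc]
          refine ⟨⟨by omega, h3⟩, ?_⟩
          have h5 := hn.2
          rw [hf, pow_one, ← hM] at h5
          have e1 : pr n + 2 * (a * n + γ) + M * (0 + 2 * g) = pr n + 2 * (a * n + (γ + M * g)) := by ring
          rwa [e1] at h5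
        have h1r : ((S.filter (fun s => (s ^ 1 + primorial y * (0 + 2 * g)).Prime)).card : ℝ) ≤ hits a (γ + M * g) N1 := by
          exact_mod_cast h1
        have hlog0 : 0 ≤ Real.log (2 * ((2 * X : ℕ) : ℝ)) := by
          apply Real.log_nonneg
          push_cast
          linarith
        have hV1 : 1 ≤ (Vz y)⁻¹ := by
          rw [one_le_inv₀ (Vz_pos y)]
          exact Vz_le_one y
        calc _ ≤ (hits a (γ + M * g) N1 : ℝ) * (2 * L) := mul_le_mul h1r hlog2 hlog0 (Nat.cast_nonneg _)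
          _ < (1 - 3 * δ) * (δ0 * (X / (2 * B * L * M))) := hg3
          _ ≤ (1 - 3 * δ) * (S.card * (Vz y)⁻¹) := by
              apply mul_le_mul_of_nonneg_left _ (by linarith)
              calc δ0 * ((X : ℝ) / (2 * B * L * M)) ≤ S.card := hSlow
                _ = S.card * 1 := (mul_one _).symm
                _ ≤ _ := mul_le_mul_of_nonneg_left hV1 (Nat.cast_nonneg _)
    · intro g _ g' _ h
      simp only at h
      omega
  have hcr : (((Icc 1 G).filter (fun g => (hits a (γ + M * g) N1 : ℝ) * (2 * L) <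
      (1 - 3 * δ) * (δ0 * (X / (2 * B * L * M))))).card : ℝ) ≤
      (((Icc 1 (2 * G)).filter (fun g => ((S.filter (fun s => (s ^ 1 + primorial y * (0 + g)).Prime)).card : ℝ) *
      Real.log (2 * ((2 * X : ℕ) : ℝ)) < (1 - 3 * δ) * (S.card * (Vz y)⁻¹))).card : ℝ) := by exact_mod_cast hcard
  refine hcr.trans (key.trans (le_of_eq ?_))
  push_cast
  ring





end Pool.Agent.L0h42.LP
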