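import Mathlib
import Pool.Agent.L0h42.LP.L6
import Pool.Agent.H373R2.T7.Crt

/-! Linear polynomials, every slope: double counting of the pairs (index, constant term) modulo the primorial. -/

set_option autoImplicit false

namespace Pool.Agent.L0h42.LP
open Finset Pool.Agent.H373R2.T7 Pool.Agent.Y877.SX

lemma primorial_pz (y : ℕ) : primorial y = ∏ p ∈ pz y, p := by
  unfold primorial
  apply prod_congr _ fun _ _ => rfl
  ext p
  rw [mem_filter, mem_range, mem_pz]
  constructor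
  · rintro ⟨h1, h2⟩
    exact ⟨by omega, h2⟩
  · rintro ⟨h1, h2⟩
    exact ⟨by omega, h2⟩

open Classical in
/-- the condition on the class `r` of the constant term modulo `p` -/
def Ap (a n p r : ℕ) : Prop := p ≠ 2 → (if p ∣ a then ¬ p ∣ pr n + 2 * r else p ∣ a * n + r)

lemma Ap_mod (a n p γ : ℕ) : Ap a n p (γ % p) ↔ Ap a n p γ := by
  have h1 : γ % p ≡ γ [MOD p] := Nat.mod_modEq γ p
  unfold Ap
  refine imp_congr_right fun _ => ?_
  have e1 : p ∣ pr n + 2 * (γ % p) ↔ p ∣ pr n + 2 * γ := ((h1.mul_left 2).add_left (pr n)).dvd_iff dvd_rfl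
  have e2 : p ∣ a * n + γ % p ↔ p ∣ a * n + γ := (h1.add_left (a * n)).dvd_iff dvd_rfl
  split_ifs
  · exact not_congr e1
  · exact e2

open Classical in
/-- the indices which are good for the class `γ` of the constant term -/
noncomputable def JJ (a y N1 γ : ℕ) : Finset ℕ := (Icc (y + 1) N1).filter (fun n => ∀ p ∈ pz y, Ap a n p γ)

lemma JJ_ok {a y N1 γ n : ℕ} (hn : n ∈ JJ a y N1 γ) (p : ℕ) (hp : p.Prime) (hpy : p ≤ y) : ¬ p ∣ pr n + 2 * (a * n + γ) := by
  classical
  unfold JJ at hn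
  rw [mem_filter, mem_Icc] at hn
  obtain ⟨⟨h1, h2⟩, h3⟩ := hn
  intro hd
  have hpn : y < pr n := lt_of_lt_of_le (by omega : y < n) (pr_gt (by omega)).le
  have hnd : ¬ p ∣ pr n := fun h => by
    have := (Nat.prime_dvd_prime_iff_eq hp (pr_prime n)).1 h
    omega
  by_cases hp2 : p = 2
  · rw [hp2] at hd hnd
    exact hnd ((Nat.dvd_add_left (Dvd.intro _ rfl)).1 hd)
  · have h4 := h3 p (mem_pz.2 ⟨hpy, hp⟩) hp2
    split_ifs at h4 with ha
    · apply h4
      have e1 : pr n + 2 * (a * n + γ) = (pr n + 2 * γ) + 2 * (a * n) := by ring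
      rw [e1] at hd
      exact (Nat.dvd_add_left ((ha.mul_right n).mul_left 2)).1 hd
    · exact hnd ((Nat.dvd_add_left (h4.mul_left 2)).1 hd)

/-- the local factors -/
def kp (a p : ℕ) : ℕ := if p = 2 then 2 else if p ∣ a then p - 1 else 1
def mp (a p : ℕ) : ℕ := if p = 2 then 1 else if p ∣ a then 1 else p
noncomputable def rp (a p : ℕ) : ℝ := if p = 2 then 1 else if p ∣ a then 1 - 1 / (p : ℝ) else 1

lemma kmr (a p : ℕ) (hp : p.Prime) : (kp a p : ℝ) * mp a p = p * rp a p := by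
  have hp0 : (p : ℝ) ≠ 0 := by exact_mod_cast hp.ne_zero
  unfold kp mp rp
  split_ifs with h1 h2
  · rw [h1]
    norm_num
  · have : 1 ≤ p := hp.one_le
    push_cast [this]
    field_simp
  · push_cast
    ring

open Classical in
lemma Ap_card (a n p : ℕ) (hp : p.Prime) : kp a p ≤ ((range p).filter (fun r => Ap a n p r)).card := by
  unfold kp
  split_ifs with h1 h2
  · have e1 : (range p).filter (fun r => Ap a n p r) = range p := by
      apply filter_true_of_mem
      intro r _ h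
      exact absurd h1 h
    rw [e1, card_range, h1]
  · -- at most one class is excluded
    have hodd : ¬ p ∣ 2 := fun h => h1 ((Nat.prime_dvd_prime_iff_eq hp Nat.prime_two).1 h)
    have h3 : ((range p).filter (fun r => ¬ Ap a n p r)).card ≤ 1 := by
      rw [card_le_one]
      intro r hr s hs
      rw [mem_filter, mem_range] at hr hs
      have g1 : p ∣ pr n + 2 * r := by
        have := hr.2
        unfold Ap at this
        push Not at this
        obtain ⟨_, g⟩ := this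
        rw [if_pos h2] at g
        exact not_not.1 g
      have g2 : p ∣ pr n + 2 * s := by
        have := hs.2
        unfold Ap at this
        push Not at this
        obtain ⟨_, g⟩ := this
        rw [if_pos h2] at g
        exact not_not.1 g
      have g3 : 2 * r ≡ 2 * s [MOD p] := by
        have e1 : pr n + 2 * r ≡ pr n + 2 * s [MOD p] := ((Nat.modEq_zero_iff_dvd).2 g1).trans ((Nat.modEq_zero_iff_dvd).2 g2).symm
        exact Nat.ModEq.add_left_cancel' (pr n) e1
      have hcop : Nat.gcd p 2 = 1 := ((hp.coprime_iff_not_dvd).2 hodd)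
      have g4 : r ≡ s [MOD p] := Nat.ModEq.cancel_left_of_coprime hcop g3
      exact Nat.ModEq.eq_of_lt_of_lt g4 hr.1 hs.1
    have h4 := card_filter_add_card_filter_not (s := range p) (fun r => Ap a n p r)
    rw [card_range] at h4
    omega
  · -- one class
    rw [Nat.one_le_iff_ne_zero, ← Nat.pos_iff_ne_zero, card_pos]
    refine ⟨(p - (a * n) % p) % p, ?_⟩
    rw [mem_filter, mem_range]
    refine ⟨Nat.mod_lt _ hp.pos, fun _ => ?_⟩
    rw [if_neg h2]
    have h5 : (a * n) % p < p := Nat.mod_lt _ hp.pos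
    rw [Nat.dvd_iff_mod_eq_zero, Nat.add_mod, Nat.mod_mod, Nat.add_mod_mod]
    have : (a * n) % p + (p - (a * n) % p) = p := by omega
    rw [this, Nat.mod_self]

open Classical in
lemma JJ_low (a y N1 : ℕ) : (N1 - y) * ∏ p ∈ pz y, kp a p ≤ ∑ γ ∈ range (∏ p ∈ pz y, p), (JJ a y N1 γ).card := by
  have h1 : ∑ γ ∈ range (∏ p ∈ pz y, p), (JJ a y N1 γ).card =
      ∑ n ∈ Icc (y + 1) N1, ((range (∏ p ∈ pz y, p)).filter (fun γ => ∀ p ∈ pz y, Ap a n p γ)).card := by
    unfold JJ
    simp only [card_filter]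
    rw [sum_comm]
  rw [h1]
  have h2 : ∀ n ∈ Icc (y + 1) N1, ∏ p ∈ pz y, kp a p ≤ ((range (∏ p ∈ pz y, p)).filter (fun γ => ∀ p ∈ pz y, Ap a n p γ)).card := by
    intro n _
    have h3 := crt_card (fun p r => Ap a n p r) (pz y) (fun p hp => (mem_pz.1 hp).2)
    have h4 : (range (∏ p ∈ pz y, p)).filter (fun γ => ∀ p ∈ pz y, Ap a n p γ) =
        (range (∏ p ∈ pz y, p)).filter (fun γ => ∀ p ∈ pz y, Ap a n p (γ % p)) := by
      apply filter_congr
      intro γ _
      exact forall_congr' fun p => forall_congr' fun _ => (Ap_mod a n p γ).symm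
    rw [h4]
    have h5 : ((range (∏ p ∈ pz y, p)).filter (fun γ => ∀ p ∈ pz y, Ap a n p (γ % p))).card =
        ∏ p ∈ pz y, ((range p).filter (fun r => Ap a n p r)).card := by
      convert h3
    rw [h5]
    exact prod_le_prod' fun p hp => Ap_card a n p (mem_pz.1 hp).2
  have h3 := sum_le_sum h2
  rw [sum_const, smul_eq_mul, Nat.card_Icc] at h3
  have h4 : N1 + 1 - (y + 1) = N1 - y := by omega
  rwa [h4] at h3

lemma dvd_of_JJ {a y N1 γ n m : ℕ} (hn : n ∈ JJ a y N1 γ) (hm : m ∈ JJ a y N1 γ) : n ≡ m [MOD ∏ p ∈ pz y, mp a p] := by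
  classical
  unfold JJ at hn hm
  rw [mem_filter] at hn hm
  rw [Nat.modEq_iff_dvd]
  have hpp : ∀ p ∈ pz y, p.Prime := fun p hp => (mem_pz.1 hp).2
  have h1 : ((∏ p ∈ pz y, mp a p : ℕ) : ℤ) = ∏ p ∈ pz y, (mp a p : ℤ) := by push_cast; rfl
  rw [h1]
  apply Finset.prod_dvd_of_coprime
  · intro p hp q hq hpq
    have hp' := hpp p hp
    have hq' := hpp q hq
    show IsCoprime ((mp a p : ℕ) : ℤ) ((mp a q : ℕ) : ℤ)
    rw [Nat.isCoprime_iff_coprime]
    unfold mp
    split_ifs <;> first | exact Nat.coprime_one_left _ | exact Nat.coprime_one_right _ | exact (Nat.coprime_primes hp' hq').2 hpq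
  · intro p hp
    have hp' := hpp p hp
    unfold mp
    split_ifs with h2 h3
    · exact one_dvd _
    · exact one_dvd _
    · have g1 := hn.2 p hp h2
      have g2 := hm.2 p hp h2
      rw [if_neg h3] at g1 g2
      have g3 : (p : ℤ) ∣ (a : ℤ) * (m - n) := by
        have e1 : (p : ℤ) ∣ ((a * n + γ : ℕ) : ℤ) := by exact_mod_cast g1
        have e2 : (p : ℤ) ∣ ((a * m + γ : ℕ) : ℤ) := by exact_mod_cast g2
        have e3 := dvd_sub e2 e1
        have e4 : ((a * m + γ : ℕ) : ℤ) - ((a * n + γ : ℕ) : ℤ) = (a : ℤ) * (m - n) := by push_cast; ring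
        rwa [e4] at e3
      have hpi : Prime (p : ℤ) := Nat.prime_iff_prime_int.1 hp'
      rcases hpi.dvd_or_dvd g3 with g | g
      · exact absurd (by exact_mod_cast g) h3
      · exact g

lemma JJ_up (a y N1 γ : ℕ) : (JJ a y N1 γ).card ≤ N1 / (∏ p ∈ pz y, mp a p) + 1 := by
  classical
  obtain ⟨m, hm⟩ : ∃ m, m = ∏ p ∈ pz y, mp a p := ⟨_, rfl⟩
  rw [← hm]
  have h1 : (JJ a y N1 γ).card ≤ (range (N1 / m + 1)).card := by
    apply card_le_card_of_injOn (fun n => n / m)
    · intro n hn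
      rw [mem_coe] at hn
      unfold JJ at hn
      rw [mem_filter, mem_Icc] at hn
      rw [mem_coe, mem_range]
      exact Nat.lt_succ_of_le (Nat.div_le_div_right hn.1.2)
    · intro n hn n' hn' h
      rw [mem_coe] at hn hn'
      have h2 := dvd_of_JJ hn hn'
      rw [← hm] at h2
      have h3 : n % m = n' % m := h2
      have h4 : n / m = n' / m := h
      rw [← Nat.div_add_mod n m, ← Nat.div_add_mod n' m, h3, h4]
  rwa [card_range] at h1

open Classical in
lemma bad_card (a y N1 : ℕ) (δ0 : ℝ) (hd0 : 0 < δ0) (hd1 : δ0 ≤ 1 / 3) (hyN : y ≤ N1) (V : ℝ) (hV : V = (N1 : ℝ) / (∏ p ∈ pz y, mp a p : ℕ))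
    (hVy : 1 + (y : ℝ) ≤ δ0 * V) :
    (((range (∏ p ∈ pz y, p)).filter (fun γ => ((JJ a y N1 γ).card : ℝ) < δ0 * V)).card : ℝ) ≤
      (∏ p ∈ pz y, p : ℕ) * (1 - ∏ p ∈ pz y, rp a p + 3 * δ0) := by
  obtain ⟨M, hM⟩ : ∃ M, M = ∏ p ∈ pz y, p := ⟨_, rfl⟩
  obtain ⟨m, hm⟩ : ∃ m, m = ∏ p ∈ pz y, mp a p := ⟨_, rfl⟩
  obtain ⟨k, hk⟩ : ∃ k, k = ∏ p ∈ pz y, kp a p := ⟨_, rfl⟩
  obtain ⟨ρ, hρ⟩ : ∃ ρ, ρ = ∏ p ∈ pz y, rp a p := ⟨_, rfl⟩
  have hpp : ∀ p ∈ pz y, p.Prime := fun p hp => (mem_pz.1 hp).2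
  have hkm : (k : ℝ) * m = M * ρ := by
    rw [hk, hm, hM, hρ]
    push_cast
    rw [← prod_mul_distrib, ← prod_mul_distrib]
    exact prod_congr rfl fun p hp => kmr a p (hpp p hp)
  have hm1 : 1 ≤ m := by
    rw [hm]
    apply Nat.one_le_iff_ne_zero.2
    rw [prod_ne_zero_iff]
    intro p hp
    have := (hpp p hp).ne_zero
    unfold mp
    split_ifs <;> omega
  have hmr : (1 : ℝ) ≤ m := by exact_mod_cast hm1
  have hM1 : 1 ≤ M := by
    rw [hM]
    apply Nat.one_le_iff_ne_zero.2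
    rw [prod_ne_zero_iff]
    exact fun p hp => (hpp p hp).ne_zero
  have hMr : (1 : ℝ) ≤ M := by exact_mod_cast hM1
  have hρ1 : ρ ≤ 1 := by
    rw [hρ]
    apply prod_le_one
    · intro p hp
      unfold rp
      have : (1 : ℝ) ≤ p := by exact_mod_cast (hpp p hp).one_le
      split_ifs
      · norm_num
      · rw [sub_nonneg, div_le_one (by linarith)]
        exact this
      · norm_num
    · intro p hp
      unfold rp
      have : (1 : ℝ) ≤ p := by exact_mod_cast (hpp p hp).one_le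
      split_ifs
      · exact le_rfl
      · have : 0 ≤ 1 / (p : ℝ) := by positivity
        linarith
      · exact le_rfl
  have hρ0 : 0 ≤ ρ := by
    have h1 : 0 ≤ (k : ℝ) * m := by positivity
    rw [hkm] at h1
    exact nonneg_of_mul_nonneg_right h1 (by linarith)
  have hlow := JJ_low a y N1
  rw [← hk, ← hM] at hlow
  have hup : ∀ γ, ((JJ a y N1 γ).card : ℝ) ≤ V + 1 := by
    intro γ
    have h1 := JJ_up a y N1 γ
    rw [← hm] at h1
    have h2 : ((N1 / m : ℕ) : ℝ) ≤ (N1 : ℝ) / m := Nat.cast_div_le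
    have h3 : ((JJ a y N1 γ).card : ℝ) ≤ ((N1 / m : ℕ) : ℝ) + 1 := by exact_mod_cast h1
    rw [hV, ← hm]
    linarith
  rw [← hM, ← hρ]
  obtain ⟨D, hD⟩ : ∃ D, D = (range M).filter (fun γ => ((JJ a y N1 γ).card : ℝ) < δ0 * V) := ⟨_, rfl⟩
  rw [← hD]
  have hDM : D.card ≤ M := by
    rw [hD]
    exact (card_filter_le _ _).trans (by rw [card_range])
  have hVpos : 0 < V := by
    have h1 : 0 < δ0 * V := by
      have : (0 : ℝ) ≤ y := Nat.cast_nonneg y
      linarith
    exact (mul_pos_iff_of_pos_left hd0).1 h1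
  have hsum : ∑ γ ∈ range M, ((JJ a y N1 γ).card : ℝ) ≤ D.card * (δ0 * V) + (M - D.card) * (V + 1) := by
    have h1 : ∀ γ ∈ range M, ((JJ a y N1 γ).card : ℝ) ≤ if γ ∈ D then δ0 * V else V + 1 := by
      intro γ hγ
      split_ifs with h
      · rw [hD, mem_filter] at h
        exact h.2.le
      · exact hup γ
    refine (sum_le_sum h1).trans (le_of_eq ?_)
    rw [sum_ite, sum_const, sum_const, nsmul_eq_mul, nsmul_eq_mul]
    have h2 : (range M).filter (fun γ => γ ∈ D) = D := by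
      rw [filter_mem_eq_inter]
      apply inter_eq_right.2
      rw [hD]
      exact filter_subset _ _
    have h3 : ((range M).filter (fun γ => γ ∉ D)).card = M - D.card := by
      have := card_filter_add_card_filter_not (s := range M) (fun γ => γ ∈ D)
      rw [card_range, h2] at this
      omega
    rw [h2, h3]
    push_cast [hDM]
    ring
  have hl2 : ((N1 : ℝ) - y) * k ≤ D.card * (δ0 * V) + (M - D.card) * (V + 1) := by
    refine le_trans ?_ hsum
    have : (((N1 - y) * k : ℕ) : ℝ) ≤ ((∑ γ ∈ range M, (JJ a y N1 γ).card : ℕ) : ℝ) := by exact_mod_cast hlow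
    push_cast [hyN] at this
    exact this
  have hl3 : ρ * M * (V - y) ≤ ((N1 : ℝ) - y) * k := by
    have h1 : (k : ℝ) = M * ρ / m := by
      rw [eq_div_iff (by linarith)]
      exact hkm
    rw [h1]
    have h2 : ((N1 : ℝ) - y) * (M * ρ / m) = ρ * M * (V - y / m) := by
      rw [hV, ← hm]
      field_simp
    rw [h2]
    apply mul_le_mul_of_nonneg_left _ (by positivity)
    have : (y : ℝ) / m ≤ y := div_le_self (Nat.cast_nonneg y) hmr
    linarith
  obtain ⟨b, hb⟩ : ∃ b : ℝ, b = D.card := ⟨_, rfl⟩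
  have hbM : b ≤ M := by rw [hb]; exact_mod_cast hDM
  have hb0 : 0 ≤ b := by rw [hb]; exact Nat.cast_nonneg _
  rw [← hb] at hl2 ⊢
  have hy0 : (0 : ℝ) ≤ y := Nat.cast_nonneg y
  have h4 : b * ((1 - δ0) * V) ≤ M * ((1 - ρ + δ0) * V) := by
    have e1 := hl3.trans hl2
    have e2 : ρ * (y : ℝ) ≤ y := by nlinarith
    have e3 : (M : ℝ) * (1 + ρ * y) ≤ M * (δ0 * V) := mul_le_mul_of_nonneg_left (by linarith) (by linarith)
    nlinarith
  have h5 : b * (1 - δ0) ≤ M * (1 - ρ + δ0) := by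
    have e1 : (b * (1 - δ0)) * V ≤ (M * (1 - ρ + δ0)) * V := by linarith
    exact le_of_mul_le_mul_right e1 hVpos
  by_contra hcon
  push Not at hcon
  have h6 : (M : ℝ) * (1 - ρ + 3 * δ0) * (1 - δ0) < b * (1 - δ0) := mul_lt_mul_of_pos_right hcon (by linarith)
  have h7 : (M : ℝ) * (1 - ρ + δ0) ≤ M * (1 - ρ + 3 * δ0) * (1 - δ0) := by
    rw [mul_assoc]
    apply mul_le_mul_of_nonneg_left _ (by linarith)
    nlinarith
  linarith

end Pool.Agent.L0h42.LP
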