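import Mathlib
import Pool.Agent.L0h42.LP.L7

/-! Linear polynomials, every slope: most constant terms. -/

set_option autoImplicit false

namespace Pool.Agent.L0h42.LP
open Finset Pool.Agent.H373R2.T7 Pool.Agent.Y877.SX

lemma rp_prod (a y : ℕ) (ha : a ≠ 0) (hay : a ≤ y) : ∏ p ∈ pz y, rp a p = ∏ p ∈ a.primeFactors.erase 2, (1 - 1 / (p : ℝ)) := by
  classical
  have h1 : a.primeFactors.erase 2 = (pz y).filter (fun p => p ≠ 2 ∧ p ∣ a) := by
    ext p
    rw [mem_erase, mem_filter, mem_pz, Nat.mem_primeFactors]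
    constructor
    · rintro ⟨h1, h2, h3, h4⟩
      exact ⟨⟨(Nat.le_of_dvd (Nat.pos_of_ne_zero ha) h3).trans hay, h2⟩, h1, h3⟩
    · rintro ⟨⟨h1, h2⟩, h3, h4⟩
      exact ⟨h3, h2, h4, ha⟩
  rw [h1, prod_filter]
  apply prod_congr rfl
  intro p _
  unfold rp
  by_cases h2 : p = 2
  · rw [if_pos h2, if_neg (fun h => h.1 h2)]
  · by_cases h3 : p ∣ a
    · rw [if_neg h2, if_pos h3, if_pos ⟨h2, h3⟩]
    · rw [if_neg h2, if_neg h3, if_neg (fun h => h3 h.2)]

open Classical in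
theorem every (a : ℕ) (ha : 1 ≤ a) (η ε : ℝ) (hη : 0 < η) (hε : 0 < ε) : ∃ X0 : ℕ, ∀ X : ℕ, X0 ≤ X →
    (((Icc 1 X).filter (fun c : ℕ => (hits a c c : ℝ) < c / Real.log c ^ (2 + η))).card : ℝ) ≤
      (1 - ∏ p ∈ a.primeFactors.erase 2, (1 - 1 / (p : ℝ)) + ε) * X := by
  obtain ⟨δ0, hd0d⟩ : ∃ δ0 : ℝ, δ0 = min (1 / 3) (ε / 12) := ⟨_, rfl⟩
  have hd0 : 0 < δ0 := by rw [hd0d]; exact lt_min (by norm_num) (by positivity)
  have hd1 : δ0 ≤ 1 / 3 := by rw [hd0d]; exact min_le_left _ _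
  have hdε : δ0 ≤ ε / 12 := by rw [hd0d]; exact min_le_right _ _
  obtain ⟨κ, hκd⟩ : ∃ κ : ℝ, κ = min 1 (η / 8) := ⟨_, rfl⟩
  obtain ⟨δ, hδd⟩ : ∃ δ : ℝ, δ = min (1 / 6) (ε / 24) := ⟨_, rfl⟩
  have hκ : 0 < κ := by rw [hκd]; exact lt_min (by norm_num) (by positivity)
  have hκ1 : κ ≤ 1 := by rw [hκd]; exact min_le_left _ _
  have hκη : κ ≤ η / 8 := by rw [hκd]; exact min_le_right _ _
  have hδ : 0 < δ := by rw [hδd]; exact lt_min (by norm_num) (by positivity)
  have hδ1 : δ ≤ 1 / 6 := by rw [hδd]; exact min_le_left _ _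
  have hδε : δ ≤ ε / 24 := by rw [hδd]; exact min_le_right _ _
  obtain ⟨B, X1, hB1, h1⟩ := cls_gen a κ δ δ0 hκ hκ1 hδ (by linarith) hd0
  have hBr : (1 : ℝ) ≤ B := by exact_mod_cast hB1
  -- the size of the logarithm
  obtain ⟨T, hT⟩ : ∃ T : ℝ, T = max (max (Real.exp 1) (4 / ε)) (16 * (B / δ0) * 2 ^ (2 + η)) := ⟨_, rfl⟩
  have hT1 : Real.exp 1 ≤ T := by rw [hT]; exact (le_max_left _ _).trans (le_max_left _ _)
  have hT2 : 4 / ε ≤ T := by rw [hT]; exact (le_max_right _ _).trans (le_max_left _ _)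
  have hT3 : 16 * (B / δ0) * 2 ^ (2 + η) ≤ T := by rw [hT]; exact le_max_right _ _
  have hT0 : 0 < T := (Real.exp_pos 1).trans_le hT1
  obtain ⟨x1, hx1⟩ := ev_L' (max T (T ^ (2 / η)))
  obtain ⟨x2, hx2⟩ := ev_log' 2 (max (16 / ε) (16 / ε ^ 2))
  obtain ⟨x3, hx3⟩ := ev_log' 4 (8 * B / δ0)
  obtain ⟨x4, hx4⟩ := ev_L' (Real.exp ((a + 1) / κ))
  refine ⟨max (max X1 x1) (max x2 (max (max x3 x4) 4)), fun X hX => ?_⟩
  have b0 : X1 ≤ X := le_trans (le_trans (le_max_left _ _) (le_max_left _ _)) hX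
  have b1 : x1 ≤ 2 * X := by have := le_trans (le_trans (le_max_right _ _) (le_max_left _ _)) hX; omega
  have b2 : x2 ≤ 2 * X := by have := le_trans (le_trans (le_max_left _ _) (le_max_right _ _)) hX; omega
  have bb := le_trans (le_trans (le_max_right _ _) (le_max_right _ _)) hX
  have b4 : 4 ≤ X := le_trans (le_max_right _ _) bb
  have b5 : x3 ≤ 2 * X := by have := le_trans (le_trans (le_max_left _ _) (le_max_left _ _)) bb; omega
  have b6 : x4 ≤ 2 * X := by have := le_trans (le_trans (le_max_right _ _) (le_max_left _ _)) bb; omega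
  obtain ⟨L, hL⟩ : ∃ L, L = Real.log (2 * X : ℕ) := ⟨_, rfl⟩
  have hL1 := hx1 (2 * X) b1
  have hs := hx2 (2 * X) b2
  have hs3 := hx3 (2 * X) b5
  have hL4a := hx4 (2 * X) b6
  rw [← hL] at hL1 hs hs3 hL4a
  have hLT : T ≤ L := (le_max_left _ _).trans hL1
  have hLη : T ^ (2 / η) ≤ L := (le_max_right _ _).trans hL1
  have hLe : Real.exp 1 ≤ L := hT1.trans hLT
  have hL0 : 0 < L := (Real.exp_pos 1).trans_le hLe
  have hL1' : 1 ≤ L := (Real.one_le_exp (by norm_num)).trans hLe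
  have hlogL0 : 0 ≤ Real.log L := Real.log_nonneg hL1'
  have hX0 : (0 : ℝ) < X := by exact_mod_cast (by omega : 0 < X)
  have hX4 : (4 : ℝ) ≤ X := by exact_mod_cast b4
  obtain ⟨y, hy⟩ : ∃ y, y = ⌊κ * Real.log L⌋₊ := ⟨_, rfl⟩
  obtain ⟨N1, hN1⟩ : ∃ N1, N1 = ⌊(X : ℝ) / (B * L)⌋₊ := ⟨_, rfl⟩
  obtain ⟨M, hM⟩ : ∃ M, M = primorial y := ⟨_, rfl⟩
  obtain ⟨G, hG⟩ : ∃ G, G = X / M := ⟨_, rfl⟩
  obtain ⟨⟨hy2', hML2, hyL, hbig, hN1b⟩, h2⟩ := h1 X b0 L hL y N1 M hy hN1 hM
  rw [← hG] at h2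
  have hM1 : 1 ≤ M := by rw [hM]; exact primorial_pos y
  have hMr : (1 : ℝ) ≤ M := by exact_mod_cast hM1
  have hy1 : (y : ℝ) ≤ κ * Real.log L := by rw [hy]; exact Nat.floor_le (by positivity)
  have hMη : (M : ℝ) ≤ L ^ (η / 4) := by
    have e1 : (M : ℝ) ≤ (4 : ℝ) ^ y := by rw [hM]; exact_mod_cast primorial_le_four_pow y
    refine e1.trans ?_
    rw [← Real.rpow_natCast, Real.rpow_def_of_pos (by norm_num), Real.rpow_def_of_pos hL0]
    apply Real.exp_le_exp.2
    have h7 : Real.log 4 ≤ 2 := by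
      have : Real.log 4 = 2 * Real.log 2 := by
        rw [show (4 : ℝ) = 2 ^ 2 by norm_num, Real.log_pow]
        norm_num
      rw [this]
      have := Real.log_two_lt_d9
      linarith
    calc Real.log 4 * y ≤ 2 * (κ * Real.log L) := mul_le_mul h7 hy1 (Nat.cast_nonneg _) (by norm_num)
      _ ≤ 2 * (η / 8 * Real.log L) := by
          apply mul_le_mul_of_nonneg_left _ (by norm_num)
          exact mul_le_mul_of_nonneg_right hκη hlogL0
      _ = Real.log L * (η / 4) := by ring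
  -- sizes of `X`
  have hsq : √((2 * X : ℕ) : ℝ) * √((2 * X : ℕ) : ℝ) = 2 * X := by
    rw [Real.mul_self_sqrt (Nat.cast_nonneg _)]
    push_cast
    ring
  have hsq0 : 0 ≤ √((2 * X : ℕ) : ℝ) := Real.sqrt_nonneg _
  have hs1 : 16 / ε * L ^ 2 ≤ √((2 * X : ℕ) : ℝ) := (mul_le_mul_of_nonneg_right (le_max_left _ _) (by positivity)).trans hs
  have hs2 : 16 / ε ^ 2 * L ^ 2 ≤ √((2 * X : ℕ) : ℝ) := (mul_le_mul_of_nonneg_right (le_max_right _ _) (by positivity)).trans hs
  have hsqX : √((2 * X : ℕ) : ℝ) ≤ X := by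
    rw [Real.sqrt_le_left hX0.le]
    push_cast
    nlinarith
  have hL2X : L ^ 2 ≤ ε / 16 * X := by
    have h3 := hs1.trans hsqX
    rw [div_mul_eq_mul_div, div_le_iff₀ hε] at h3
    linarith
  -- the logarithm of `c`
  have hlogc : ∀ c : ℕ, ε / 4 * X < c → L / 2 ≤ Real.log c := by
    intro c hc
    have hc0 : (0 : ℝ) < c := lt_trans (by positivity) hc
    have h3 : √((2 * X : ℕ) : ℝ) ≤ c := by
      -- `√(2X) ≤ ε X / 4`
      have h4 : 16 / ε ^ 2 * 1 ≤ √((2 * X : ℕ) : ℝ) := by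
        refine le_trans ?_ hs2
        apply mul_le_mul_of_nonneg_left _ (by positivity)
        exact one_le_pow₀ hL1'
      have h5 : 16 / ε * 1 ≤ √((2 * X : ℕ) : ℝ) := by
        refine le_trans ?_ hs1
        apply mul_le_mul_of_nonneg_left _ (by positivity)
        exact one_le_pow₀ hL1'
      rw [mul_one, div_le_iff₀ hε] at h5
      have h6 : √((2 * X : ℕ) : ℝ) * 16 ≤ √((2 * X : ℕ) : ℝ) * (√((2 * X : ℕ) : ℝ) * ε) := mul_le_mul_of_nonneg_left h5 hsq0
      have h7 : √((2 * X : ℕ) : ℝ) * (√((2 * X : ℕ) : ℝ) * ε) = 2 * X * ε := by rw [← mul_assoc, hsq]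
      linarith
    have h4 := Real.log_le_log (Real.sqrt_pos.2 (by push_cast; positivity)) h3
    rw [Real.log_sqrt (Nat.cast_nonneg _), ← hL] at h4
    exact h4
  -- the power
  have hpow : 16 * (B / δ0) * (2 : ℝ) ^ (2 + η) ≤ L ^ (η / 2) := by
    refine hT3.trans ?_
    have h3 := Real.rpow_le_rpow (by positivity) hLη (show (0 : ℝ) ≤ η / 2 by positivity)
    rw [← Real.rpow_mul hT0.le] at h3
    have e1 : 2 / η * (η / 2) = 1 := by field_simp
    rwa [e1, Real.rpow_one] at h3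
  -- the bad classes
  have hlogL1 : (a + 1) / κ ≤ Real.log L := by
    have := Real.log_le_log (Real.exp_pos _) hL4a
    rwa [Real.log_exp] at this
  have hay : a ≤ y := by
    rw [hy]
    apply Nat.le_floor
    have h3 := mul_le_mul_of_nonneg_left hlogL1 hκ.le
    rw [mul_div_cancel₀ _ hκ.ne'] at h3
    linarith
  obtain ⟨V, hV⟩ : ∃ V : ℝ, V = (N1 : ℝ) / (∏ p ∈ pz y, mp a p : ℕ) := ⟨_, rfl⟩
  have hMp : M = ∏ p ∈ pz y, p := by rw [hM]; exact primorial_pz y
  have hmp1 : 1 ≤ ∏ p ∈ pz y, mp a p ∧ ∏ p ∈ pz y, mp a p ≤ M := by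
    constructor
    · apply Nat.one_le_iff_ne_zero.2
      rw [prod_ne_zero_iff]
      intro p hp
      have := (mem_pz.1 hp).2.ne_zero
      unfold mp
      split_ifs <;> omega
    · rw [hMp]
      apply prod_le_prod'
      intro p hp
      have := (mem_pz.1 hp).2.one_le
      unfold mp
      split_ifs <;> omega
  have hX8 : 8 * (B : ℝ) / δ0 * L ^ 4 ≤ X := hs3.trans (by
    rw [Real.sqrt_le_left hX0.le]
    push_cast
    nlinarith)
  have hX8' : 8 * (B : ℝ) * L ^ 4 ≤ δ0 * X := by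
    rw [div_mul_eq_mul_div, div_le_iff₀ hd0] at hX8
    linarith
  have hN1low : (X : ℝ) / (2 * B * L) ≤ N1 := by
    have h3 : (X : ℝ) / (B * L) = X / (2 * B * L) + X / (2 * B * L) := by field_simp; norm_num
    have h4 : 1 ≤ (X : ℝ) / (2 * B * L) := by
      rw [le_div_iff₀ (by positivity)]
      have h5 : L ≤ L ^ 4 := le_self_pow₀ hL1' (by norm_num)
      have h6 : 2 * (B : ℝ) * L ≤ 2 * B * L ^ 4 := mul_le_mul_of_nonneg_left h5 (by positivity)
      have h7 : 0 ≤ (B : ℝ) * L ^ 4 := by positivity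
      linarith
    linarith
  have hVlow : (X : ℝ) / (2 * B * L * M) ≤ V := by
    have hm0 : (0 : ℝ) < (∏ p ∈ pz y, mp a p : ℕ) := by exact_mod_cast hmp1.1
    have hmM : ((∏ p ∈ pz y, mp a p : ℕ) : ℝ) ≤ M := by exact_mod_cast hmp1.2
    rw [hV]
    calc (X : ℝ) / (2 * B * L * M) = X / (2 * B * L) / M := by rw [div_div]
      _ ≤ N1 / M := div_le_div_of_nonneg_right hN1low (by linarith)
      _ ≤ _ := div_le_div_of_nonneg_left (Nat.cast_nonneg _) hm0 hmM
  have hVy : 1 + (y : ℝ) ≤ δ0 * V := by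
    have h3 : δ0 * ((X : ℝ) / (2 * B * L * M)) ≤ δ0 * V := mul_le_mul_of_nonneg_left hVlow hd0.le
    refine le_trans ?_ h3
    rw [← mul_div_assoc, le_div_iff₀ (by positivity)]
    calc (1 + (y : ℝ)) * (2 * B * L * M) ≤ (L + L) * (2 * B * L * L ^ 2) := by gcongr
      _ = 4 * B * L ^ 4 := by ring
      _ ≤ δ0 * X := by
          have : 0 ≤ (B : ℝ) * L ^ 4 := by positivity
          linarith
  have hyN : y ≤ N1 := by
    have h3 : (y : ℝ) ≤ N1 := by
      refine le_trans ?_ hN1low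
      rw [le_div_iff₀ (by positivity)]
      calc (y : ℝ) * (2 * B * L) ≤ L * (2 * B * L) := by gcongr
        _ = 2 * B * L ^ 2 := by ring
        _ ≤ 2 * B * L ^ 4 := by
            apply mul_le_mul_of_nonneg_left _ (by positivity)
            exact pow_le_pow_right₀ hL1' (by norm_num)
        _ ≤ X := by
            have : 0 ≤ (B : ℝ) * L ^ 4 := by positivity
            linarith
    exact_mod_cast h3
  have hbad := bad_card a y N1 δ0 hd0 hd1 hyN V hV hVy
  rw [← hMp, rp_prod a y (by omega) hay] at hbad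
  obtain ⟨ρ, hρ⟩ : ∃ ρ, ρ = ∏ p ∈ a.primeFactors.erase 2, (1 - 1 / (p : ℝ)) := ⟨_, rfl⟩
  rw [← hρ] at hbad ⊢
  obtain ⟨BC, hBC⟩ : ∃ BC, BC = (range M).filter (fun γ => ((JJ a y N1 γ).card : ℝ) < δ0 * V) := ⟨_, rfl⟩
  rw [← hBC] at hbad
  obtain ⟨Bd, hBd⟩ : ∃ Bd : ℕ → Finset ℕ, ∀ γ, Bd γ = (Icc 1 G).filter (fun g => γ ∈ BC ∨ (hits a (γ + M * g) N1 : ℝ) * (2 * L) <
      (1 - 3 * δ) * (δ0 * (X / (2 * B * L * M)))) := ⟨_, fun _ => rfl⟩
  have hsub : (Icc 1 X).filter (fun c : ℕ => (hits a c c : ℝ) < c / Real.log c ^ (2 + η)) ⊆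
      (range M ∪ Icc 1 ⌊ε / 4 * X⌋₊) ∪ (range M).biUnion (fun γ => (Bd γ).image (fun g => γ + M * g)) := by
    intro c hc
    rw [mem_filter, mem_Icc] at hc
    obtain ⟨⟨hc1, hc2⟩, hc4⟩ := hc
    rw [mem_union, mem_union, mem_range, mem_Icc, mem_biUnion]
    by_cases hcM : c < M
    · exact Or.inl (Or.inl hcM)
    by_cases hcε : c ≤ ⌊ε / 4 * (X : ℝ)⌋₊
    · exact Or.inl (Or.inr ⟨hc1, hcε⟩)
    right
    push Not at hcM hcε
    have hcε' : ε / 4 * X < c := (Nat.floor_lt (by positivity)).1 hcε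
    have hcr0 : (0 : ℝ) < c := lt_trans (by positivity) hcε'
    refine ⟨c % M, ?_, ?_⟩
    · rw [mem_range]
      exact Nat.mod_lt _ (by omega)
    · rw [mem_image]
      refine ⟨c / M, ?_, Nat.mod_add_div _ _⟩
      rw [hBd, mem_filter, mem_Icc]
      refine ⟨⟨(Nat.one_le_div_iff (by omega)).2 hcM, by rw [hG]; exact Nat.div_le_div_right hc2⟩, ?_⟩
      rw [Nat.mod_add_div]
      by_contra hcon
      rw [not_or] at hcon
      obtain ⟨_, hcon⟩ := hcon
      push Not at hcon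
      have hN1c : N1 ≤ c := by
        have h3 : (N1 : ℝ) ≤ c := by
          have h4 : (N1 : ℝ) ≤ X / (B * L) := by rw [hN1]; exact Nat.floor_le (by positivity)
          refine h4.trans (le_trans ?_ hcε'.le)
          have h5 : 4 ≤ ε * L := by
            have := hT2.trans hLT
            rwa [div_le_iff₀' hε] at this
          rw [div_le_iff₀ (by positivity)]
          calc (X : ℝ) = X * (1 / 4 * 4) := by ring
            _ ≤ X * (1 / 4 * (ε * L)) := by gcongr
            _ = ε / 4 * X * (1 * L) := by ring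
            _ ≤ ε / 4 * X * (B * L) := by gcongr
        exact_mod_cast h3
      have h3 : (hits a c N1 : ℝ) ≤ hits a c c := by exact_mod_cast hits_mono a c hN1c
      have h4 : (1 / 2 : ℝ) * (δ0 * (X / (2 * B * L * M))) ≤ (hits a c N1 : ℝ) * (2 * L) := by
        refine le_trans ?_ hcon
        apply mul_le_mul_of_nonneg_right _ (by positivity)
        linarith
      have hlc := hlogc c hcε'
      have hlc0 : 0 < Real.log c := by linarith
      have h5 : (X : ℝ) / (8 * (B / δ0) * L ^ 2 * M) ≤ hits a c c := by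
        refine le_trans ?_ h3
        rw [div_le_iff₀ (by positivity)]
        have h6 : (1 / 2 : ℝ) * (δ0 * (X / (2 * B * L * M))) * (4 * (B / δ0) * L * M) = X := by
          field_simp
          ring
        calc (X : ℝ) = (1 / 2 : ℝ) * (δ0 * (X / (2 * B * L * M))) * (4 * (B / δ0) * L * M) := h6.symm
          _ ≤ ((hits a c N1 : ℝ) * (2 * L)) * (4 * (B / δ0) * L * M) := by gcongr
          _ = _ := by ring
      have h6 : (c : ℝ) / Real.log c ^ (2 + η) ≤ (X : ℝ) / (8 * (B / δ0) * L ^ 2 * M) := by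
        have hcX : (c : ℝ) ≤ X := by exact_mod_cast hc2
        rw [div_le_div_iff₀ (by positivity) (by positivity)]
        have h7 : (L / 2) ^ (2 + η) ≤ Real.log c ^ (2 + η) := Real.rpow_le_rpow (by positivity) hlc (by linarith)
        have h8 : (L / 2) ^ (2 + η) = L ^ (2 + η) / 2 ^ (2 + η) := Real.div_rpow hL0.le (by norm_num) _
        have h9 : L ^ (2 + η) = L ^ (2 : ℝ) * (L ^ (η / 2) * L ^ (η / 2)) := by
          rw [← Real.rpow_add hL0, ← Real.rpow_add hL0]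
          congr 1
          ring
        have h9' : L ^ (2 : ℝ) = L ^ 2 := Real.rpow_two L
        have h10 : L ^ (η / 4) ≤ L ^ (η / 2) := Real.rpow_le_rpow_of_exponent_le hL1' (by linarith)
        have h11 : (0 : ℝ) < 2 ^ (2 + η) := Real.rpow_pos_of_pos (by norm_num) _
        have h12 : 8 * ((B : ℝ) / δ0) * L ^ 2 * M ≤ (L / 2) ^ (2 + η) := by
          rw [h8, le_div_iff₀ h11, h9, h9']
          calc 8 * ((B : ℝ) / δ0) * L ^ 2 * M * 2 ^ (2 + η) ≤ 8 * ((B : ℝ) / δ0) * L ^ 2 * L ^ (η / 2) * 2 ^ (2 + η) := by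
                gcongr
                exact hMη.trans h10
            _ = L ^ 2 * ((8 * (B / δ0) * 2 ^ (2 + η)) * L ^ (η / 2)) := by ring
            _ ≤ L ^ 2 * (L ^ (η / 2) * L ^ (η / 2)) := by
                apply mul_le_mul_of_nonneg_left _ (by positivity)
                apply mul_le_mul_of_nonneg_right _ (by positivity)
                refine le_trans ?_ hpow
                apply mul_le_mul_of_nonneg_right _ h11.le
                apply mul_le_mul_of_nonneg_right _ (by positivity)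
                norm_num
        calc (c : ℝ) * (8 * (B / δ0) * L ^ 2 * M) ≤ X * (8 * (B / δ0) * L ^ 2 * M) := by gcongr
          _ ≤ X * Real.log c ^ (2 + η) := mul_le_mul_of_nonneg_left (h12.trans h7) hX0.le
      linarith
  have hcard := (card_le_card hsub).trans (card_union_le _ _)
  have hc1 : ((range M ∪ Icc 1 ⌊ε / 4 * (X : ℝ)⌋₊).card : ℝ) ≤ M + ε / 4 * X := by
    have h3 := card_union_le (range M) (Icc 1 ⌊ε / 4 * (X : ℝ)⌋₊)
    rw [card_range, Nat.card_Icc, Nat.add_sub_cancel] at h3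
    have h4 : ((range M ∪ Icc 1 ⌊ε / 4 * (X : ℝ)⌋₊).card : ℝ) ≤ M + (⌊ε / 4 * (X : ℝ)⌋₊ : ℝ) := by exact_mod_cast h3
    have h5 : (⌊ε / 4 * (X : ℝ)⌋₊ : ℝ) ≤ ε / 4 * X := Nat.floor_le (by positivity)
    linarith
  have hG0 : (0 : ℝ) ≤ G := Nat.cast_nonneg G
  have hMGX : (M : ℝ) * G ≤ X := by
    rw [hG]
    exact_mod_cast Nat.mul_div_le X M
  have hρ1 : ρ ≤ 1 := by
    rw [hρ]
    apply prod_le_one
    · intro p hp
      have : (1 : ℝ) ≤ p := by exact_mod_cast (Nat.prime_of_mem_primeFactors (mem_of_mem_erase hp)).one_le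
      rw [sub_nonneg, div_le_one (by linarith)]
      exact this
    · intro p _
      have : 0 ≤ 1 / (p : ℝ) := by positivity
      linarith
  have hc2 : (((range M).biUnion (fun γ => (Bd γ).image (fun g => γ + M * g))).card : ℝ) ≤ (1 - ρ + 3 * δ0) * X + ε / 4 * X := by
    have h3 : (((range M).biUnion (fun γ => (Bd γ).image (fun g => γ + M * g))).card : ℝ) ≤ ∑ γ ∈ range M, ((Bd γ).card : ℝ) := by
      have h4 : ((range M).biUnion (fun γ => (Bd γ).image (fun g => γ + M * g))).card ≤ ∑ γ ∈ range M, (Bd γ).card :=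
        card_biUnion_le.trans (sum_le_sum fun γ _ => card_image_le)
      exact_mod_cast h4
    refine h3.trans ?_
    have h4 : ∀ γ ∈ range M, ((Bd γ).card : ℝ) ≤ (if γ ∈ BC then (G : ℝ) else 0) + 6 * δ * G := by
      intro γ hγ
      rw [mem_range] at hγ
      rw [hBd]
      have hG6 : 0 ≤ 6 * δ * (G : ℝ) := by positivity
      by_cases hB : γ ∈ BC
      · rw [if_pos hB]
        have h5 : (((Icc 1 G).filter (fun g => γ ∈ BC ∨ (hits a (γ + M * g) N1 : ℝ) * (2 * L) <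
          (1 - 3 * δ) * (δ0 * (X / (2 * B * L * M))))).card : ℝ) ≤ G := by
          have h6 := card_filter_le (Icc 1 G) (fun g => γ ∈ BC ∨ (hits a (γ + M * g) N1 : ℝ) * (2 * L) <
            (1 - 3 * δ) * (δ0 * (X / (2 * B * L * M))))
          rw [Nat.card_Icc, Nat.add_sub_cancel] at h6
          exact_mod_cast h6
        linarith
      · rw [if_neg hB, zero_add]
        have hgood : δ0 * V ≤ ((JJ a y N1 γ).card : ℝ) := by
          by_contra hcon
          push Not at hcon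
          apply hB
          rw [hBC, mem_filter, mem_range]
          exact ⟨hγ, hcon⟩
        have h5 := h2 γ hγ (JJ a y N1 γ) (by unfold JJ; exact filter_subset _ _) (fun n hn p hp hpy => JJ_ok hn p hp hpy)
          (le_trans (mul_le_mul_of_nonneg_left hVlow hd0.le) hgood)
        refine le_trans (le_of_eq ?_) h5
        congr 2
        apply filter_congr
        intro g _
        exact ⟨fun h => h.resolve_left hB, fun h => Or.inr h⟩
    refine (sum_le_sum h4).trans ?_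
    rw [sum_add_distrib, sum_const, card_range, nsmul_eq_mul, sum_ite, sum_const, sum_const_zero, nsmul_eq_mul, add_zero]
    have h5 : (((range M).filter (fun γ => γ ∈ BC)).card : ℝ) ≤ M * (1 - ρ + 3 * δ0) := by
      refine le_trans ?_ hbad
      have : ((range M).filter (fun γ => γ ∈ BC)).card ≤ BC.card := by
        apply card_le_card
        intro γ hγ
        exact (mem_filter.1 hγ).2
      exact_mod_cast this
    have h6 : (((range M).filter (fun γ => γ ∈ BC)).card : ℝ) * G ≤ (1 - ρ + 3 * δ0) * X := by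
      calc (((range M).filter (fun γ => γ ∈ BC)).card : ℝ) * G ≤ (M * (1 - ρ + 3 * δ0)) * G := mul_le_mul_of_nonneg_right h5 hG0
        _ = (1 - ρ + 3 * δ0) * (M * G) := by ring
        _ ≤ (1 - ρ + 3 * δ0) * X := mul_le_mul_of_nonneg_left hMGX (by linarith)
    have h7 : (M : ℝ) * (6 * δ * G) ≤ ε / 4 * X := by
      calc (M : ℝ) * (6 * δ * G) = 6 * δ * (M * G) := by ring
        _ ≤ 6 * δ * X := by gcongr
        _ ≤ 6 * (ε / 24) * X := by gcongr
        _ = ε / 4 * X := by ring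
    linarith
  have hM16 : (M : ℝ) ≤ ε / 16 * X := hML2.trans hL2X
  have hfin : (((Icc 1 X).filter (fun c : ℕ => (hits a c c : ℝ) < c / Real.log c ^ (2 + η))).card : ℝ) ≤
      ((range M ∪ Icc 1 ⌊ε / 4 * (X : ℝ)⌋₊).card : ℝ) + (((range M).biUnion (fun γ => (Bd γ).image (fun g => γ + M * g))).card : ℝ) := by
    exact_mod_cast hcard
  have h3 : 3 * δ0 * (X : ℝ) ≤ ε / 4 * X := by
    apply mul_le_mul_of_nonneg_right _ hX0.le
    linarith
  have : 0 < ε * X := by positivity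
  have e9 : (1 - ρ + ε) * (X : ℝ) = (1 - ρ) * X + ε * X := by ring
  have e10 : (1 - ρ + 3 * δ0) * (X : ℝ) = (1 - ρ) * X + 3 * δ0 * X := by ring
  rw [e9]
  rw [e10] at hc2
  linarith

end Pool.Agent.L0h42.LP
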